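import Mathlib

/-! The complete Boolean algebra of regular lower sets of a preorder. -/

namespace Pool.Agent.Helper97.Ku

universe u v

/-- Regular lower sets. -/
@[ext]
structure RO (P : Type u) [Preorder P] where
  c : Set P
  low : ∀ {p q}, q ≤ p → p ∈ c → q ∈ c
  reg : ∀ p, (∀ q, q ≤ p → ∃ r, r ≤ q ∧ r ∈ c) → p ∈ c

namespace RO

variable {P : Type u} [Preorder P]

instance : Membership P (RO P) := ⟨fun a p => p ∈ a.c⟩

theorem mem_c {a : RO P} {p : P} : p ∈ a.c ↔ p ∈ a := Iff.rfl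

theorem lower {a : RO P} {p q : P} (h : q ≤ p) (hp : p ∈ a) : q ∈ a := a.low h hp

theorem dense {a : RO P} {p : P} (h : ∀ q, q ≤ p → ∃ r, r ≤ q ∧ r ∈ a) : p ∈ a := a.reg p h

/-- The regular lower set generated by a set `S`: all `p` below which `S` is dense. -/
def cl (S : Set P) : RO P where
  c := {p | ∀ q, q ≤ p → ∃ r, r ≤ q ∧ r ∈ S}
  low h hp := fun q hq => hp q (hq.trans h)
  reg p h := fun q hq => by
    obtain ⟨r, hr, hr'⟩ := h q hq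
    obtain ⟨s, hs, hs'⟩ := hr' r le_rfl
    exact ⟨s, hs.trans hr, hs'⟩

theorem mem_cl {S : Set P} {p : P} : p ∈ cl S ↔ ∀ q, q ≤ p → ∃ r, r ≤ q ∧ r ∈ S := Iff.rfl

instance : PartialOrder (RO P) where
  le a b := ∀ p, p ∈ a → p ∈ b
  le_refl a p hp := hp
  le_trans a b c h k p hp := k p (h p hp)
  le_antisymm a b h k := RO.ext (Set.Subset.antisymm h k)

theorem le_def {a b : RO P} : a ≤ b ↔ ∀ p, p ∈ a → p ∈ b := Iff.rfl

/-- Complement. -/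
def cp (a : RO P) : RO P where
  c := {p | ∀ q, q ≤ p → q ∉ a}
  low h hp := fun q hq => hp q (hq.trans h)
  reg p h := fun q hq hqa => by
    obtain ⟨r, hr, hr'⟩ := h q hq
    exact hr' r le_rfl (lower hr hqa)

/-- Infimum of a set. -/
def inf' (S : Set (RO P)) : RO P where
  c := {p | ∀ a ∈ S, p ∈ a}
  low h hp := fun a ha => lower h (hp a ha)
  reg p h := fun a ha => dense fun q hq => by
    obtain ⟨r, hr, hr'⟩ := h q hq
    exact ⟨r, hr, hr' a ha⟩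

/-- Binary infimum. -/
def min' (a b : RO P) : RO P where
  c := {p | p ∈ a ∧ p ∈ b}
  low h hp := ⟨lower h hp.1, lower h hp.2⟩
  reg p h := ⟨dense fun q hq => by
      obtain ⟨r, hr, hr'⟩ := h q hq
      exact ⟨r, hr, hr'.1⟩, dense fun q hq => by
      obtain ⟨r, hr, hr'⟩ := h q hq
      exact ⟨r, hr, hr'.2⟩⟩

instance : CompleteBooleanAlgebra (RO P) where
  sup a b := cl {p | p ∈ a ∨ p ∈ b}
  le_sup_left a b p hp := fun q hq => ⟨q, le_rfl, Or.inl (lower hq hp)⟩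
  le_sup_right a b p hp := fun q hq => ⟨q, le_rfl, Or.inr (lower hq hp)⟩
  sup_le a b c h k p hp := dense fun q hq => by
    obtain ⟨r, hr, hr'⟩ := hp q hq
    exact ⟨r, hr, hr'.elim (h r) (k r)⟩
  inf := min'
  inf_le_left a b p hp := hp.1
  inf_le_right a b p hp := hp.2
  le_inf a b c h k p hp := ⟨h p hp, k p hp⟩
  sSup S := cl {p | ∃ a ∈ S, p ∈ a}
  isLUB_sSup S := ⟨fun a ha p hp q hq => ⟨q, le_rfl, a, ha, lower hq hp⟩,
    fun b hb p hp => dense fun q hq => by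
      obtain ⟨r, hr, a, ha, hr'⟩ := hp q hq
      exact ⟨r, hr, hb ha r hr'⟩⟩
  sInf S := inf' S
  isGLB_sInf S := ⟨fun a ha p hp => hp a ha, fun b hb p hp a ha => hb ha p hp⟩
  top := ⟨Set.univ, fun _ _ => trivial, fun _ _ => trivial⟩
  bot := cl ∅
  le_top a p hp := trivial
  bot_le a p hp := by
    obtain ⟨r, hr, hr'⟩ := hp p le_rfl
    exact absurd hr' (Set.notMem_empty r)
  compl := cp
  sdiff a b := min' a (cp b)
  himp a b := cl {p | p ∈ cp a ∨ p ∈ b}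
  le_sup_inf a b c p hp := fun q hq => by
    obtain ⟨h1, h2⟩ := hp
    obtain ⟨r, hr, hr'⟩ := h1 q hq
    rcases hr' with hr' | hr'
    · exact ⟨r, hr, Or.inl hr'⟩
    · obtain ⟨s, hs, hs'⟩ := h2 r (hr.trans hq)
      rcases hs' with hs' | hs'
      · exact ⟨s, hs.trans hr, Or.inl hs'⟩
      · exact ⟨s, hs.trans hr, Or.inr ⟨lower hs hr', hs'⟩⟩
  inf_compl_le_bot a p hp := absurd hp.1 (hp.2 p le_rfl)
  top_le_sup_compl a p _ := fun q _ => by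
    by_cases h : ∃ r, r ≤ q ∧ r ∈ a
    · obtain ⟨r, hr, hr'⟩ := h
      exact ⟨r, hr, Or.inl hr'⟩
    · exact ⟨q, le_rfl, Or.inr fun r hr hr' => h ⟨r, hr, hr'⟩⟩
  sdiff_eq a b := rfl
  himp_eq a b := by
    apply RO.ext
    ext p
    constructor
    · intro hp q hq
      obtain ⟨r, hr, hr'⟩ := hp q hq
      exact ⟨r, hr, hr'.symm⟩
    · intro hp q hq
      obtain ⟨r, hr, hr'⟩ := hp q hq
      exact ⟨r, hr, hr'.symm⟩

theorem mem_top (p : P) : p ∈ (⊤ : RO P) := trivial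

theorem not_mem_bot (p : P) : p ∉ (⊥ : RO P) := fun hp => by
  obtain ⟨r, _, hr'⟩ := hp p le_rfl
  exact hr'

theorem mem_inf {a b : RO P} {p : P} : p ∈ a ⊓ b ↔ p ∈ a ∧ p ∈ b := Iff.rfl

theorem mem_sup {a b : RO P} {p : P} :
    p ∈ a ⊔ b ↔ ∀ q, q ≤ p → ∃ r, r ≤ q ∧ (r ∈ a ∨ r ∈ b) := Iff.rfl

theorem mem_compl {a : RO P} {p : P} : p ∈ aᶜ ↔ ∀ q, q ≤ p → q ∉ a := Iff.rfl

theorem mem_iInf {ι : Sort*} {a : ι → RO P} {p : P} : p ∈ ⨅ i, a i ↔ ∀ i, p ∈ a i := by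
  constructor
  · intro h i
    exact h (a i) ⟨i, rfl⟩
  · rintro h b ⟨i, rfl⟩
    exact h i

theorem mem_iSup {ι : Sort*} {a : ι → RO P} {p : P} :
    p ∈ ⨆ i, a i ↔ ∀ q, q ≤ p → ∃ r, r ≤ q ∧ ∃ i, r ∈ a i := by
  constructor
  · intro h q hq
    obtain ⟨r, hr, b, ⟨i, rfl⟩, hb⟩ := h q hq
    exact ⟨r, hr, i, hb⟩
  · intro h q hq
    obtain ⟨r, hr, i, hi⟩ := h q hq
    exact ⟨r, hr, a i, ⟨i, rfl⟩, hi⟩

theorem mem_himp {a b : RO P} {p : P} : p ∈ a ⇨ b ↔ ∀ q, q ≤ p → q ∈ a → q ∈ b := by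
  constructor
  · intro h q hq hqa
    refine dense fun r hr => ?_
    obtain ⟨s, hs, hs'⟩ := h r (hr.trans hq)
    rcases hs' with hs' | hs'
    · exact absurd (lower (hs.trans hr) hqa) (hs' s le_rfl)
    · exact ⟨s, hs, hs'⟩
  · intro h q hq
    by_cases h1 : ∃ r, r ≤ q ∧ r ∈ a
    · obtain ⟨r, hr, hr'⟩ := h1
      exact ⟨r, hr, Or.inr (h r (hr.trans hq) hr')⟩
    · exact ⟨q, le_rfl, Or.inl fun r hr hr' => h1 ⟨r, hr, hr'⟩⟩

theorem mem_or_compl {a : RO P} (p : P) : ∃ q, q ≤ p ∧ (q ∈ a ∨ q ∈ aᶜ) := by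
  by_cases h : ∃ r, r ≤ p ∧ r ∈ a
  · obtain ⟨r, hr, hr'⟩ := h
    exact ⟨r, hr, Or.inl hr'⟩
  · exact ⟨p, le_rfl, Or.inr fun r hr hr' => h ⟨r, hr, hr'⟩⟩

theorem not_mem_compl {a : RO P} {p : P} (h : p ∈ a) (k : p ∈ aᶜ) : False := k p le_rfl h

theorem mem_of_compl {a : RO P} {p : P} (h : ∀ q, q ≤ p → q ∉ aᶜ) : p ∈ a :=
  dense fun q hq => by
    obtain ⟨r, hr, hr'⟩ := mem_or_compl (a := a) q
    rcases hr' with hr' | hr'
    · exact ⟨r, hr, hr'⟩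
    · exact absurd hr' (h r (hr.trans hq))

theorem not_mem_iff {a : RO P} {p : P} : p ∉ a ↔ ∃ q, q ≤ p ∧ q ∈ aᶜ := by
  constructor
  · intro h
    by_contra hc
    push Not at hc
    exact h (mem_of_compl hc)
  · rintro ⟨q, hq, hq'⟩ hp
    exact hq' q le_rfl (lower hq hp)

end RO

end Pool.Agent.Helper97.Ku
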