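import Mathlib

/-! Boolean-valued sets over a complete Boolean algebra, first-order formulas of the language of
set theory, their Boolean value, ultrafilters, the two-valued quotient, and the predicate
`IsZFC`. -/

namespace Pool.Agent.Helper97.Ku

universe u v

/-- Boolean-valued sets. -/
inductive BSet (L : Type u) : Type (u + 1)
  | mk (α : Type u) (A : α → BSet L) (B : α → L) : BSet L

/-- Formulas of the language of set theory, with named variables. -/
inductive Fml : Type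
  | mem (i j : ℕ)
  | eq (i j : ℕ)
  | neg (a : Fml)
  | and (a b : Fml)
  | all (i : ℕ) (a : Fml)

/-- Tarski truth in a structure `(N, E)`. -/
def Fml.sat {N : Type v} (E : N → N → Prop) : Fml → (ℕ → N) → Prop
  | .mem i j, w => E (w i) (w j)
  | .eq i j, w => w i = w j
  | .neg a, w => ¬ a.sat E w
  | .and a b, w => a.sat E w ∧ b.sat E w
  | .all i a, w => ∀ x, a.sat E (Function.update w i x)

/-- `(N, E)` is a model of ZFC. -/
structure IsZFC (N : Type v) (E : N → N → Prop) : Prop where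
  ext : ∀ a b, (∀ x, E x a ↔ E x b) → a = b
  found : ∀ a, (∃ x, E x a) → ∃ x, E x a ∧ ∀ y, E y x → ¬ E y a
  pair : ∀ a b, ∃ c, ∀ x, E x c ↔ (x = a ∨ x = b)
  union : ∀ a, ∃ c, ∀ x, E x c ↔ ∃ y, E y a ∧ E x y
  power : ∀ a, ∃ c, ∀ x, E x c ↔ ∀ z, E z x → E z a
  infinity : ∃ c, (∃ o, E o c ∧ ∀ x, ¬ E x o) ∧
    ∀ x, E x c → ∃ y, E y c ∧ ∀ z, E z y ↔ (E z x ∨ z = x)
  sep : ∀ (φ : Fml) (w : ℕ → N) (a : N), ∃ b, ∀ x, E x b ↔
    (E x a ∧ φ.sat E (Function.update w 0 x))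
  repl : ∀ (φ : Fml) (w : ℕ → N) (a : N),
    (∀ x, E x a → ∃! y, φ.sat E (Function.update (Function.update w 0 x) 1 y)) →
    ∃ b, ∀ y, E y b ↔
      ∃ x, E x a ∧ φ.sat E (Function.update (Function.update w 0 x) 1 y)
  choice : ∀ a, (∀ x, E x a → ∃ y, E y x) →
    (∀ x y, E x a → E y a → x ≠ y → ∀ z, ¬ (E z x ∧ E z y)) →
    ∃ c, ∀ x, E x a → ∃! z, E z x ∧ E z c

variable {L : Type u} [CompleteBooleanAlgebra L]

namespace BSet

/-- Boolean value of equality. -/
def eq : BSet L → BSet L → L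
  | mk _ A B, mk _ A' B' =>
    (⨅ a, (B a ⇨ ⨆ a', (B' a' ⊓ eq (A a) (A' a')))) ⊓
      (⨅ a', (B' a' ⇨ ⨆ a, (B a ⊓ eq (A a) (A' a'))))

/-- Boolean value of membership. -/
def mem (x : BSet L) : BSet L → L
  | mk _ A' B' => ⨆ a', (B' a' ⊓ eq x (A' a'))

/-- An extensional `L`-valued predicate. -/
def Ext (φ : BSet L → L) : Prop := ∀ x y, x.eq y ⊓ φ x ≤ φ y

/-- An extensional binary `L`-valued predicate. -/
def Ext2 (φ : BSet L → BSet L → L) : Prop :=
  (∀ x, Ext (φ x)) ∧ ∀ y, Ext (fun x => φ x y)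

end BSet

/-- Boolean value of a formula. -/
def Fml.val : Fml → (ℕ → BSet L) → L
  | .mem i j, w => (w i).mem (w j)
  | .eq i j, w => (w i).eq (w j)
  | .neg a, w => (a.val w)ᶜ
  | .and a b, w => a.val w ⊓ b.val w
  | .all i a, w => ⨅ x, a.val (Function.update w i x)

/-- Ultrafilters on a Boolean algebra. -/
structure UF (L : Type u) [CompleteBooleanAlgebra L] where
  mem : L → Prop
  top : mem ⊤
  mono : ∀ {a b}, a ≤ b → mem a → mem b
  inf : ∀ {a b}, mem a → mem b → mem (a ⊓ b)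
  compl : ∀ {a}, mem aᶜ ↔ ¬ mem a

end Pool.Agent.Helper97.Ku
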