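import Pool.Agent.Helper97.Ku.Basic

/-! The two-valued quotient of the Boolean-valued universe. -/

namespace Pool.Agent.Helper97.Ku

universe u

variable {L : Type u} [CompleteBooleanAlgebra L]

open BSet

namespace UF

theorem inf_iff (U : UF L) {a b : L} : U.mem (a ⊓ b) ↔ U.mem a ∧ U.mem b :=
  ⟨fun h => ⟨U.mono inf_le_left h, U.mono inf_le_right h⟩, fun h => U.inf h.1 h.2⟩

theorem not_bot (U : UF L) : ¬ U.mem ⊥ := by
  have := U.compl (a := (⊤ : L))
  rw [compl_top] at this
  rw [this]
  exact fun h => h U.top

theorem sup_iff (U : UF L) {a b : L} : U.mem (a ⊔ b) ↔ U.mem a ∨ U.mem b := by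
  have h : a ⊔ b = (aᶜ ⊓ bᶜ)ᶜ := by rw [compl_inf, compl_compl, compl_compl]
  rw [h, U.compl, U.inf_iff, U.compl, U.compl]
  tauto

theorem himp_iff (U : UF L) {a b : L} : U.mem (a ⇨ b) ↔ (U.mem a → U.mem b) := by
  rw [himp_eq, U.sup_iff, U.compl]
  tauto

/-- The setoid of equality modulo the ultrafilter. -/
def setoid (U : UF L) : Setoid (BSet L) where
  r x y := U.mem (x.eq y)
  iseqv := {
    refl := fun x => by rw [eq_refl]; exact U.top
    symm := fun {x y} h => by rw [eq_comm']; exact h
    trans := fun {x y z} h k => U.mono (eq_trans x y z) (U.inf h k) }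

end UF

/-- The quotient. -/
def NM (U : UF L) : Type (u + 1) := Quotient U.setoid

namespace NM

/-- The class of a Boolean-valued set. -/
def mk (U : UF L) (x : BSet L) : NM U := Quotient.mk U.setoid x

/-- Membership in the quotient. -/
def E {U : UF L} (a b : NM U) : Prop := ∃ x y, a = mk U x ∧ b = mk U y ∧ U.mem (x.mem y)

theorem mk_surj (U : UF L) (a : NM U) : ∃ x, mk U x = a := Quotient.exists_rep a

theorem mk_eq (U : UF L) (x y : BSet L) : mk U x = mk U y ↔ U.mem (x.eq y) :=
  ⟨fun h => Quotient.exact h, fun h => Quotient.sound h⟩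

theorem mk_E (U : UF L) (x y : BSet L) : E (mk U x) (mk U y) ↔ U.mem (x.mem y) := by
  constructor
  · rintro ⟨x', y', hx, hy, h⟩
    rw [mk_eq] at hx hy
    have h1 : U.mem (x.mem y') := by
      refine U.mono (mem_congr_left x' x y') (U.inf ?_ h)
      rw [eq_comm']; exact hx
    refine U.mono (mem_congr_right y' y x) (U.inf ?_ h1)
    rw [eq_comm']; exact hy
  · intro h
    exact ⟨x, y, rfl, rfl, h⟩

end NM

/-- The value of a formula is extensional in every variable. -/
theorem Fml.val_ext (φ : Fml) (w : ℕ → BSet L) (i : ℕ) :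
    Ext (fun x => φ.val (Function.update w i x)) := by
  induction φ generalizing w with
  | mem j k =>
    by_cases hj : j = i <;> by_cases hk : k = i
    · subst hj; subst hk
      simpa [Fml.val] using (Ext.mem_self (L := L))
    · subst hj
      simpa [Fml.val, hk] using (Ext.mem_left (w k))
    · subst hk
      simpa [Fml.val, hj] using (Ext.mem_right (w j))
    · simpa [Fml.val, hj, hk] using (Ext.const (L := L) ((w j).mem (w k)))
  | eq j k =>
    by_cases hj : j = i <;> by_cases hk : k = i
    · subst hj; subst hk
      simpa [Fml.val, eq_refl] using (Ext.const (L := L) ⊤)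
    · subst hj
      simpa [Fml.val, hk] using (Ext.eq_left (w k))
    · subst hk
      simpa [Fml.val, hj] using (Ext.eq_right (w j))
    · simpa [Fml.val, hj, hk] using (Ext.const (L := L) ((w j).eq (w k)))
  | neg a ih => exact (ih w).compl
  | and a b iha ihb => exact (iha w).inf (ihb w)
  | all j a ih =>
    by_cases hj : j = i
    · subst hj
      simpa [Fml.val] using (Ext.const (L := L) (⨅ x, a.val (Function.update w j x)))
    · have : (fun x => (Fml.all j a).val (Function.update w i x)) =
          fun x => ⨅ y, a.val (Function.update (Function.update w j y) i x) := by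
        funext x
        simp only [Fml.val]
        refine iInf_congr fun y => ?_
        rw [Function.update_comm (Ne.symm hj)]
      rw [this]
      exact Ext.iInf fun y => ih _

end Pool.Agent.Helper97.Ku
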