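import Mathlib

/-! A small second-order language over a set `W` (to be the first uncountable ordinal) with a sort
`F` of functions `W → W`, its values in a complete Boolean algebra, and names of functions. -/

namespace Pool.Agent.Helper97.Ku

universe u v w

/-- Terms: variables, the constants zero and one, and the pairing function. -/
inductive Tm : Type
  | v (i : ℕ)
  | c0
  | c1
  | pr (a b : Tm)

/-- Second-order formulas with named individual and function variables. `ap f a b` means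
`f(a) = b`, `om a` means `a < ω`. -/
inductive SO : Type
  | lt (a b : Tm)
  | eq (a b : Tm)
  | om (a : Tm)
  | ap (f : ℕ) (a b : Tm)
  | neg (a : SO)
  | and (a b : SO)
  | all (i : ℕ) (a : SO)
  | allF (f : ℕ) (a : SO)

/-- Structures with truth values in `L`. -/
structure BStr (W : Type u) (F : Type v) (L : Type w) where
  lt : W → W → L
  eq : W → W → L
  om : W → L
  ap : F → W → W → L
  pr : W → W → W
  c0 : W
  c1 : W

/-- Evaluation of terms. -/
def Tm.ev {W : Type u} {F : Type v} {L : Type w} (M : BStr W F L) (i : ℕ → W) : Tm → W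
  | .v k => i k
  | .c0 => M.c0
  | .c1 => M.c1
  | .pr a b => M.pr (a.ev M i) (b.ev M i)

/-- The value of a formula. -/
def SO.val {W : Type u} {F : Type v} {L : Type w} [CompleteBooleanAlgebra L] (M : BStr W F L) :
    SO → (ℕ → W) → (ℕ → F) → L
  | .lt a b, i, _ => M.lt (a.ev M i) (b.ev M i)
  | .eq a b, i, _ => M.eq (a.ev M i) (b.ev M i)
  | .om a, i, _ => M.om (a.ev M i)
  | .ap f a b, i, e => M.ap (e f) (a.ev M i) (b.ev M i)
  | .neg a, i, e => (a.val M i e)ᶜ
  | .and a b, i, e => a.val M i e ⊓ b.val M i e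
  | .all k a, i, e => ⨅ x, a.val M (Function.update i k x) e
  | .allF f a, i, e => ⨅ x, a.val M i (Function.update e f x)

namespace SO

/-- Disjunction. -/
def or (a b : SO) : SO := .neg (.and (.neg a) (.neg b))
/-- Implication. -/
def imp (a b : SO) : SO := .neg (.and a (.neg b))
/-- Existential individual quantifier. -/
def ex (i : ℕ) (a : SO) : SO := .neg (.all i (.neg a))
/-- Existential function quantifier. -/
def exF (f : ℕ) (a : SO) : SO := .neg (.allF f (.neg a))
/-- Iterated existential function quantifiers. -/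
def exs (l : List ℕ) (a : SO) : SO := l.foldr exF a

/-- Syntactic classes: `cls a true` means that only universal function quantifiers occur in `a`
(negations taken into account), `cls a false` the dual. -/
def cls : SO → Bool → Bool
  | .lt _ _, _ => true
  | .eq _ _, _ => true
  | .om _, _ => true
  | .ap _ _ _, _ => true
  | .neg a, s => a.cls (!s)
  | .and a b, s => a.cls s && b.cls s
  | .all _ a, s => a.cls s
  | .allF _ a, s => s && a.cls s

end SO

/-- Ground structure: a linear order with a pairing function, zero, one and omega. -/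
structure Grd (Ω : Type u) [LinearOrder Ω] where
  pi : Ω × Ω ≃ Ω
  c0 : Ω
  c1 : Ω
  w0 : Ω
  c0_le : ∀ i, c0 ≤ i
  lt_c1 : ∀ i, i < c1 ↔ i = c0
  w0_pos : c0 < w0
  w0_lim : ∀ i, i < w0 → ∃ j, i < j ∧ j < w0
  w0_fin : ∀ i, i < w0 → i = c0 ∨ ∃ j, j < i ∧ ∀ k, k < i → k ≤ j
  bd : ∀ i α, ∃ α', ∀ j, j < α → pi (i, j) < α'
  nomax : ∀ i : Ω, ∃ j, i < j

/-- Truth value of a proposition. -/
def bo {L : Type w} [CompleteBooleanAlgebra L] (P : Prop) : L := ⨆ _ : P, ⊤

/-- Names of functions `Ω → Ω`. -/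
structure FN (Ω : Type u) (L : Type w) [CompleteBooleanAlgebra L] where
  v : Ω → Ω → L
  tot : ∀ i, ⨆ j, v i j = ⊤
  fn : ∀ i j k, j ≠ k → v i j ⊓ v i k = ⊥

/-- The structure over the ground set `Ω` with function sort the names of functions. -/
def M0 {Ω : Type u} [LinearOrder Ω] (G : Grd Ω) (L : Type w) [CompleteBooleanAlgebra L] :
    BStr Ω (FN Ω L) L where
  lt a b := bo (a < b)
  eq a b := bo (a = b)
  om a := bo (a < G.w0)
  ap f a b := f.v a b
  pr a b := G.pi (a, b)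
  c0 := G.c0
  c1 := G.c1

section Open

variable {Ω : Type u} [LinearOrder Ω] {L : Type w} [CompleteBooleanAlgebra L]

/-- The value of `x(i) = y(i)`. -/
def FN.eqAt (x y : FN Ω L) (i : Ω) : L := ⨆ j, (x.v i j ⊓ y.v i j)

/-- The value of `x = y`. -/
def FN.eqf (x y : FN Ω L) : L := ⨅ i, x.eqAt y i

/-- The value of: `x` and `y` agree below `α`. -/
def FN.eqv (α : Ω) (x y : FN Ω L) : L := ⨅ i, ⨅ _ : i < α, x.eqAt y i

/-- `L`-valued open subsets of the cube of the function space. -/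
def Open3 (B : FN Ω L → FN Ω L → FN Ω L → L) : Prop :=
  ∀ x g h, B x g h ≤ ⨆ α, ⨅ x', ⨅ g', ⨅ h',
    ((FN.eqv α x x' ⊓ FN.eqv α g g' ⊓ FN.eqv α h h') ⇨ B x' g' h')

/-- `L`-valued `Σ¹₂` sets. -/
def Sigma12 (A : FN Ω L → L) : Prop :=
  ∃ B : FN Ω L → FN Ω L → FN Ω L → L, Open3 B ∧ ∀ x, A x = ⨆ g, ⨅ h, B x g h

/-- Extensional `L`-valued predicates of one name. -/
def FN.Ext (A : FN Ω L → L) : Prop := ∀ x y, x.eqf y ⊓ A x ≤ A y

/-- `L`-valued open predicates of a name and a sequence of names. -/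
def OpenJ (B : FN Ω L → (ℕ → FN Ω L) → L) : Prop :=
  ∀ h e, B h e ≤ ⨆ α, ⨅ h', ⨅ e' : ℕ → FN Ω L,
    ((FN.eqv α h h' ⊓ ⨅ k, FN.eqv α (e k) (e' k)) ⇨ B h' e')

/-- `L`-valued `Π¹₁` predicates of a sequence of names. -/
def Pi11 (A : (ℕ → FN Ω L) → L) : Prop :=
  ∃ B : FN Ω L → (ℕ → FN Ω L) → L, OpenJ B ∧ ∀ e, A e = ⨅ h, B h e

end Open

/-! ### The formulas -/

namespace SO

/-- Abbreviation for individual variables. -/
abbrev V (i : ℕ) : Tm := .v i

/-- `f(π(a, b)) = 1`. -/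
def R (f : ℕ) (a b : Tm) : SO := .ap f (.pr a b) .c1

/-- The statement that the function variable `0` codes a regular `ω₁`-tree with height function
the function variable `1`. Function variable `9` is used for the enumerations of the levels. -/
def reg : SO :=
  -- characteristic function
  .and (.all 0 (.or (.ap 0 (V 0) .c0) (.ap 0 (V 0) .c1))) <|
  -- irreflexive
  .and (.all 0 (.neg (R 0 (V 0) (V 0)))) <|
  -- transitive
  .and (.all 0 (.all 1 (.all 2 (.imp (.and (R 0 (V 0) (V 1)) (R 0 (V 1) (V 2)))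
    (R 0 (V 0) (V 2)))))) <|
  -- predecessors are linearly ordered
  .and (.all 0 (.all 1 (.all 2 (.imp (.and (R 0 (V 0) (V 2)) (R 0 (V 1) (V 2)))
    (.or (R 0 (V 0) (V 1)) (.or (.eq (V 0) (V 1)) (R 0 (V 1) (V 0)))))))) <|
  -- heights increase
  .and (.all 0 (.all 1 (.all 2 (.all 3 (.imp (.and (R 0 (V 0) (V 1))
    (.and (.ap 1 (V 0) (V 2)) (.ap 1 (V 1) (V 3)))) (.lt (V 2) (V 3))))))) <|
  -- all smaller heights occur below a node
  .and (.all 0 (.all 1 (.all 2 (.imp (.and (.ap 1 (V 0) (V 1)) (.lt (V 2) (V 1)))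
    (.ex 3 (.and (R 0 (V 3) (V 0)) (.ap 1 (V 3) (V 2)))))))) <|
  -- root
  .and (.ex 0 (.and (.ap 1 (V 0) .c0) (.all 1 (.imp (.ap 1 (V 1) .c0) (.eq (V 1) (V 0)))))) <|
  -- two immediate successors
  .and (.all 0 (.ex 1 (.ex 2 (.and (.neg (.eq (V 1) (V 2))) (.and (R 0 (V 0) (V 1))
    (.and (R 0 (V 0) (V 2)) (.all 3 (.and (.neg (.and (R 0 (V 0) (V 3)) (R 0 (V 3) (V 1))))
      (.neg (.and (R 0 (V 0) (V 3)) (R 0 (V 3) (V 2)))))))))))) <|
  -- pruned
  .and (.all 0 (.all 1 (.all 2 (.imp (.and (.ap 1 (V 0) (V 1)) (.lt (V 1) (V 2)))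
    (.ex 3 (.and (R 0 (V 0) (V 3)) (.ap 1 (V 3) (V 2)))))))) <|
  -- countable levels
  (.all 0 (.exF 9 (.all 1 (.imp (.ap 1 (V 1) (V 0)) (.ex 2 (.and (.om (V 2))
    (.ap 9 (V 2) (V 1))))))))

/-- The statement that function variable `3` is (the increasing enumeration of) a cofinal branch
of the tree coded by function variable `0`. -/
def br : SO :=
  .and (.all 0 (.all 1 (.all 2 (.all 3 (.imp (.and (.lt (V 0) (V 1)) (.and (.ap 3 (V 0) (V 2))
    (.ap 3 (V 1) (V 3)))) (R 0 (V 2) (V 3))))))) <|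
  (.all 0 (.all 1 (.all 2 (.imp (.and (.ap 3 (V 0) (V 1)) (R 0 (V 2) (V 1)))
    (.ex 3 (.and (.lt (V 3) (V 0)) (.ap 3 (V 3) (V 2))))))))

/-- The statement that function variable `3` is listed by function variable `2`. -/
def lst : SO :=
  .ex 0 (.all 1 (.all 2 (.imp (.ap 2 (.pr (V 0) (V 1)) (V 2)) (.ap 3 (V 1) (V 2)))))

/-- The statement that the function variable `0` codes a regular Kurepa tree. -/
def kur : SO :=
  .and (.exF 1 reg) (.allF 2 (.exF 3 (.and br (.neg lst))))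

/-- The continuum hypothesis. -/
def ch : SO :=
  .exF 0 (.allF 1 (.ex 0 (.all 1 (.imp (.om (V 1)) (.and
    (.imp (.ap 1 (V 1) .c0) (.ap 0 (.pr (V 0) (V 1)) .c0))
    (.imp (.ap 0 (.pr (V 0) (V 1)) .c0) (.ap 1 (V 1) .c0)))))))

/-- There is no injection of the whole set into omega. -/
def unc : SO :=
  .allF 0 (.ex 0 (.ex 1 (.ex 2 (.ex 3 (.and (.and (.ap 0 (V 0) (V 2)) (.ap 0 (V 1) (V 3)))
    (.or (.neg (.om (V 2))) (.and (.neg (.eq (V 0) (V 1))) (.eq (V 2) (V 3)))))))))

/-- Every initial segment injects into omega. -/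
def cnt : SO :=
  .all 4 (.exF 0 (.all 0 (.all 1 (.all 2 (.all 3 (.imp (.and (.and (.lt (V 0) (V 4))
    (.lt (V 1) (V 4))) (.and (.ap 0 (V 0) (V 2)) (.ap 0 (V 1) (V 3))))
      (.and (.om (V 2)) (.imp (.eq (V 2) (V 3)) (.eq (V 0) (V 1))))))))))

end SO

/-- The second-order statement to be forced. -/
structure HPhi {Ω : Type u} [LinearOrder Ω] (G : Grd Ω) (L : Type w)
    [CompleteBooleanAlgebra L] : Prop where
  ch : ∀ i e, SO.ch.val (M0 G L) i e = ⊤
  unc : ∀ i e, SO.unc.val (M0 G L) i e = ⊤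
  cnt : ∀ i e, SO.cnt.val (M0 G L) i e = ⊤
  ne : ∀ i e, (SO.exF 0 SO.kur).val (M0 G L) i e = ⊤
  sig : ∀ i e, Sigma12 (fun x => SO.kur.val (M0 G L) i (Function.update e 0 x))
  sig' : ∀ i e, Sigma12 (fun x => (SO.kur.val (M0 G L) i (Function.update e 0 x))ᶜ)

end Pool.Agent.Helper97.Ku
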