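import Pool.Agent.Helper97.Ku.BSet
import Pool.Agent.Helper97.Ku.SO

/-! The statement about models of ZFC: `ω₁`, the generalized Baire space, codes of regular
Kurepa trees and the class `Σ¹₂`, all in the sense of a structure `(N, E)`. -/

namespace Pool.Agent.Helper97.Ku

universe u v w

section Model

variable {N : Type v} (E : N → N → Prop)

/-- `z` is the Kuratowski pair of `a` and `b`. -/
def IsPr (z a b : N) : Prop :=
  ∀ t, E t z ↔ ((∀ s, E s t ↔ s = a) ∨ (∀ s, E s t ↔ (s = a ∨ s = b)))

/-- Transitive sets. -/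
def Tra (a : N) : Prop := ∀ x, E x a → ∀ y, E y x → E y a

/-- Ordinals. -/
def IsOrd (a : N) : Prop := Tra E a ∧ ∀ x, E x a → Tra E x

/-- `o` is omega: a nonzero limit ordinal all of whose elements are zero or successors. -/
def IsOmega (o : N) : Prop :=
  IsOrd E o ∧ (∃ x, E x o) ∧ (∀ x, E x o → ∃ y, E y o ∧ E x y) ∧
  ∀ x, E x o → (∀ y, ¬ E y x) ∨ ∃ y, E y x ∧ ∀ z, E z x → (E z y ∨ z = y)

/-- The elements of `a`. -/
def El (a : N) : Type v := {x : N // E x a}

/-- The function `f` from the elements of `a` to the elements of `b` has the graph `g`. -/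
def IsGraph (a b g : N) (f : El E a → El E b) : Prop :=
  ∀ z, E z g ↔ ∃ x : El E a, IsPr E z x.1 (f x).1

/-- The function `f` belongs to the model. -/
def Rep (a b : N) (f : El E a → El E b) : Prop := ∃ g, IsGraph E a b g f

/-- `a` is countable in the sense of the model (`o` is omega). -/
def Cble (o a : N) : Prop := ∃ f : El E a → El E o, Rep E a o f ∧ Function.Injective f

/-- `w` is the first uncountable ordinal. -/
def IsOmegaOne (o w : N) : Prop :=
  IsOrd E w ∧ (∀ x, E x w → Cble E o x) ∧ ¬ Cble E o w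

/-- The function `p` of two variables belongs to the model. -/
def Rep2 (w : N) (p : El E w → El E w → El E w) : Prop :=
  ∃ g, ∀ z, E z g ↔ ∃ x y : El E w, ∃ q, IsPr E q x.1 y.1 ∧ IsPr E z q (p x y).1

/-- The triple of the functions `x, g, h` belongs to the set `B` of the model. -/
def InB (w B : N) (x g h : El E w → El E w) : Prop :=
  ∃ x' g' h' p q, IsGraph E w w x' x ∧ IsGraph E w w g' g ∧ IsGraph E w w h' h ∧
    IsPr E p x' g' ∧ IsPr E q p h' ∧ E q B

/-- `x` and `y` agree below `α`. -/
def AgreeBelow (w : N) (α : El E w) (x y : El E w → El E w) : Prop :=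
  ∀ i : El E w, E i.1 α.1 → x i = y i

/-- `B` is an open subset of the third power of the space of functions from `w` to `w`. -/
def IsOpen3 (w B : N) : Prop :=
  ∀ x g h, Rep E w w x → Rep E w w g → Rep E w w h → InB E w B x g h →
    ∃ α : El E w, ∀ x' g' h', Rep E w w x' → Rep E w w g' → Rep E w w h' →
      AgreeBelow E w α x x' → AgreeBelow E w α g g' → AgreeBelow E w α h h' →
      InB E w B x' g' h'

/-- The set of all functions `x` from `w` to `w` in the model with property `A` is `Σ¹₂`. -/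
def IsSigma12 (w : N) (A : (El E w → El E w) → Prop) : Prop :=
  ∃ B, IsOpen3 E w B ∧ ∀ x, Rep E w w x →
    (A x ↔ ∃ g, Rep E w w g ∧ ∀ h, Rep E w w h → InB E w B x g h)

end Model

section Trees

variable {W : Type v} (lt : W → W → Prop) (om : W → Prop) (p : W → W → W)
  (F : (W → W) → Prop)

/-- Zero. -/
def IsZero (i : W) : Prop := ∀ t, ¬ lt t i

/-- One. -/
def IsOne (i : W) : Prop := ∀ t, lt t i ↔ IsZero lt t

/-- The relation coded by `x` through the pairing function `p`. -/
def Rel (x : W → W) (i j : W) : Prop := IsOne lt (x (p i j))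

/-- The function `x` is the code of a regular tree of height `ω₁` with countable levels whose
height function is `ht`. Here `F` says which functions are in the model. -/
structure RegTree (x ht : W → W) : Prop where
  char : ∀ k, IsZero lt (x k) ∨ IsOne lt (x k)
  irr : ∀ i, ¬ Rel lt p x i i
  trans : ∀ i j k, Rel lt p x i j → Rel lt p x j k → Rel lt p x i k
  lin : ∀ i j k, Rel lt p x i k → Rel lt p x j k → Rel lt p x i j ∨ i = j ∨ Rel lt p x j i
  ht_lt : ∀ i j, Rel lt p x i j → lt (ht i) (ht j)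
  ht_ex : ∀ j α, lt α (ht j) → ∃ i, Rel lt p x i j ∧ ht i = α
  root : ∃ r, IsZero lt (ht r) ∧ ∀ i, IsZero lt (ht i) → i = r
  split : ∀ i, ∃ j j', j ≠ j' ∧ Rel lt p x i j ∧ Rel lt p x i j' ∧
    ∀ k, ¬ (Rel lt p x i k ∧ Rel lt p x k j) ∧ ¬ (Rel lt p x i k ∧ Rel lt p x k j')
  pruned : ∀ i α, lt (ht i) α → ∃ j, Rel lt p x i j ∧ ht j = α
  cnt : ∀ α, ∃ e, F e ∧ ∀ j, ht j = α → ∃ n, om n ∧ e n = j

/-- `b` is the increasing enumeration of a cofinal branch of the tree coded by `x`. -/
def IsBranch (x b : W → W) : Prop :=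
  (∀ α β, lt α β → Rel lt p x (b α) (b β)) ∧
  ∀ α i, Rel lt p x i (b α) → ∃ β, lt β α ∧ b β = i

/-- `x` is the code of a regular Kurepa tree: the cofinal branches are not all of the form
`z(ν, ·)` with `ν < ω₁`, for any function `z` of the model. -/
def IsKur (x : W → W) : Prop :=
  (∃ ht, F ht ∧ RegTree lt om p F x ht) ∧
  ∀ z, F z → ∃ b, F b ∧ IsBranch lt p x b ∧ ∀ ν, ∃ α, z (p ν α) ≠ b α

end Trees

/-- In the model `(N, E)` the continuum hypothesis holds and (for some bijection between
`ω₁ × ω₁` and `ω₁`) the set of codes of regular Kurepa trees is nonempty and `Δ¹₂`. -/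
def Phi {N : Type v} (E : N → N → Prop) : Prop :=
  ∃ o w, IsOmega E o ∧ IsOmegaOne E o w ∧
    ∃ p : El E w → El E w → El E w, Rep2 E w p ∧
      Function.Bijective (fun z : El E w × El E w => p z.1 z.2) ∧
      (∃ c : El E w → El E w, Rep E w w c ∧ ∀ a, (∀ x, E x a → E x o) →
        ∃ ν : El E w, ∀ n : El E w, E n.1 o →
          (E n.1 a ↔ IsZero (fun s t : El E w => E s.1 t.1) (c (p ν n)))) ∧
      (∃ x : El E w → El E w, Rep E w w x ∧
        IsKur (fun s t => E s.1 t.1) (fun n => E n.1 o) p (Rep E w w) x) ∧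
      IsSigma12 E w (IsKur (fun s t => E s.1 t.1) (fun n => E n.1 o) p (Rep E w w)) ∧
      IsSigma12 E w (fun x =>
        ¬ IsKur (fun s t => E s.1 t.1) (fun n => E n.1 o) p (Rep E w w) x)

end Pool.Agent.Helper97.Ku
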