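import Pool.Agent.Helper97.Ku.GoalsA
import Pool.Agent.Helper97.Ku.Model

/-! Goals for the parts F and G: from the second-order statement in `L` to the model of ZFC. -/

namespace Pool.Agent.Helper97.Ku

universe u v w

open BSet

section Names

variable {Ω : Type u} [LinearOrder Ω] {L : Type u} [CompleteBooleanAlgebra L]

theorem bo_true {P : Prop} (h : P) : bo P = (⊤ : L) := by simp [bo, h]

theorem bo_false {P : Prop} (h : ¬ P) : bo P = (⊥ : L) := by simp [bo, h]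

/-- Names of elements of `Ω`. -/
structure WN (Ω : Type u) (L : Type u) [CompleteBooleanAlgebra L] where
  v : Ω → L
  tot : ⨆ i, v i = ⊤
  dj : ∀ i j, i ≠ j → v i ⊓ v j = ⊥

/-- The name of a ground element. -/
def WN.chk (i : Ω) : WN Ω L where
  v j := bo (j = i)
  tot := by
    rw [eq_top_iff]
    exact le_trans (by rw [bo_true rfl]) (le_iSup (fun j => (bo (j = i) : L)) i)
  dj j k h := by
    by_cases hj : j = i
    · rw [bo_false (P := k = i) (fun hk => h (hj.trans hk.symm)), inf_bot_eq]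
    · rw [bo_false hj, bot_inf_eq]

/-- The pair of two names. -/
def WN.pr (G : Grd Ω) (a b : WN Ω L) : WN Ω L where
  v k := a.v (G.pi.symm k).1 ⊓ b.v (G.pi.symm k).2
  tot := by
    have h1 : (⨆ k, a.v (G.pi.symm k).1 ⊓ b.v (G.pi.symm k).2) =
        ⨆ q : Ω × Ω, a.v q.1 ⊓ b.v q.2 :=
      Equiv.iSup_comp (g := fun q : Ω × Ω => a.v q.1 ⊓ b.v q.2) G.pi.symm
    rw [h1, iSup_prod]
    simp only [← inf_iSup_eq, ← iSup_inf_eq]
    rw [a.tot, b.tot, inf_top_eq]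
  dj j k h := by
    have h1 : G.pi.symm j ≠ G.pi.symm k := fun h2 => h (G.pi.symm.injective h2)
    by_cases h2 : (G.pi.symm j).1 = (G.pi.symm k).1
    · have h3 : (G.pi.symm j).2 ≠ (G.pi.symm k).2 := fun h4 => h1 (Prod.ext h2 h4)
      rw [inf_inf_inf_comm, b.dj _ _ h3, inf_bot_eq]
    · rw [inf_inf_inf_comm, a.dj _ _ h2, bot_inf_eq]

/-- The structure with individuals the names of elements of `Ω`. -/
def M1 (G : Grd Ω) (L : Type u) [CompleteBooleanAlgebra L] : BStr (WN Ω L) (FN Ω L) L where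
  lt a b := ⨆ i, ⨆ j, (a.v i ⊓ b.v j ⊓ bo (i < j))
  eq a b := ⨆ i, (a.v i ⊓ b.v i)
  om a := ⨆ i, (a.v i ⊓ bo (i < G.w0))
  ap f a b := ⨆ i, ⨆ j, (a.v i ⊓ b.v j ⊓ f.v i j)
  pr a b := WN.pr G a b
  c0 := WN.chk G.c0
  c1 := WN.chk G.c1

/-- Extensional predicates of names of elements. -/
def WN.Ext (A : WN Ω L → L) : Prop := ∀ a b : WN Ω L, (⨆ i, (a.v i ⊓ b.v i)) ⊓ A a ≤ A b

/-- Extensional predicates of three names of functions. -/
def FN.Ext3 (B : FN Ω L → FN Ω L → FN Ω L → L) : Prop :=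
  ∀ x g h x' g' h', x.eqf x' ⊓ g.eqf g' ⊓ h.eqf h' ⊓ B x g h ≤ B x' g' h'

/-- The check name of an element of a well-ordered set. -/
noncomputable def ck [WellFoundedLT Ω] : Ω → BSet L :=
  WellFounded.fix (C := fun _ => BSet L) (wellFounded_lt (α := Ω)) fun a f =>
    BSet.mk (Set.Iio a) (fun b => f b.1 b.2) (fun _ => ⊤)

/-- The check name of the whole set. -/
noncomputable def ckΩ (Ω : Type u) [LinearOrder Ω] [WellFoundedLT Ω] (L : Type u)
    [CompleteBooleanAlgebra L] : BSet L :=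
  BSet.mk Ω ck (fun _ => ⊤)

/-- Unordered pair. -/
def upr (a b : BSet L) : BSet L :=
  BSet.mk (ULift Bool) (fun t => if t.down then a else b) (fun _ => ⊤)

/-- Kuratowski pair. -/
def kpr (a b : BSet L) : BSet L := upr (upr a a) (upr a b)

/-- The set named by a name of a function. -/
noncomputable def FN.set [WellFoundedLT Ω] (f : FN Ω L) : BSet L :=
  BSet.mk (Ω × Ω) (fun t => kpr (ck t.1) (ck t.2)) (fun t => f.v t.1 t.2)

/-- The element of the check name of `Ω` with the name `a`. -/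
noncomputable def WN.set [WellFoundedLT Ω] (a : WN Ω L) : BSet L :=
  BSet.mk (Σ i : Ω, Set.Iio i) (fun t => ck t.2.1) (fun t => a.v t.1)

end Names

section Coding

variable {Ω : Type u} [LinearOrder Ω] {L : Type w} [CompleteBooleanAlgebra L]

/-- Decoding. -/
def dec (G : Grd Ω) (i : Ω) (h : FN Ω L) : FN Ω L where
  v j k := h.v (G.pi (i, j)) k
  tot j := h.tot _
  fn j := h.fn _

/-- Coding. -/
def cod (G : Grd Ω) (H : Ω → FN Ω L) : FN Ω L where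
  v m k := (H (G.pi.symm m).1).v (G.pi.symm m).2 k
  tot m := (H (G.pi.symm m).1).tot _
  fn m := (H (G.pi.symm m).1).fn _

end Coding

/-- The interface between the names and the quotient. -/
structure Rz {Ω : Type u} [LinearOrder Ω] {L : Type u} [CompleteBooleanAlgebra L]
    (G : Grd Ω) (U : UF L) where
  o : NM U
  w : NM U
  omega : IsOmega NM.E o
  ord : IsOrd NM.E w
  o_mem : NM.E o w
  cW : WN Ω L → El NM.E w
  cW_surj : Function.Surjective cW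
  cW_eq : ∀ a b, cW a = cW b ↔ U.mem ((M1 G L).eq a b)
  cW_lt : ∀ a b, NM.E (cW a).1 (cW b).1 ↔ U.mem ((M1 G L).lt a b)
  cW_om : ∀ a, NM.E (cW a).1 o ↔ U.mem ((M1 G L).om a)
  p : El NM.E w → El NM.E w → El NM.E w
  p_cW : ∀ a b, p (cW a) (cW b) = cW ((M1 G L).pr a b)
  p_rep : Rep2 NM.E w p
  cF : FN Ω L → El NM.E w → El NM.E w
  cF_rep : ∀ f, Rep NM.E w w (cF f)
  cF_surj : ∀ f, Rep NM.E w w f → ∃ f', cF f' = f
  cF_ap : ∀ f a b, cF f (cW a) = cW b ↔ U.mem ((M1 G L).ap f a b)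
  setB : ∀ B : FN Ω L → FN Ω L → FN Ω L → L, FN.Ext3 B → ∃ b : NM U, ∀ x g h,
    InB NM.E w b (cF x) (cF g) (cF h) ↔ U.mem (B x g h)
  sub : ∀ a : NM U, ∃ f : FN Ω L, ∀ n : WN Ω L,
    NM.E (cW n).1 a ↔ U.mem ((M1 G L).ap f n (M1 G L).c0)
  cble : ∀ (a : El NM.E w) (f : El NM.E w → El NM.E w), Rep NM.E w w f →
    (∀ x, NM.E x.1 a.1 → NM.E (f x).1 o) →
    (∀ x y, NM.E x.1 a.1 → NM.E y.1 a.1 → f x = f y → x = y) → Cble NM.E o a.1
  cble' : Cble NM.E o w → ∃ f : El NM.E w → El NM.E w, Rep NM.E w w f ∧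
    (∀ x, NM.E (f x).1 o) ∧ Function.Injective f

/-- The two-valued structure. -/
def Rz.MN {Ω : Type u} [LinearOrder Ω] {L : Type u} [CompleteBooleanAlgebra L]
    {G : Grd Ω} {U : UF L} (r : Rz G U) :
    BStr (El NM.E r.w) {f : El NM.E r.w → El NM.E r.w // Rep NM.E r.w r.w f} Prop where
  lt a b := NM.E a.1 b.1
  eq a b := a = b
  om a := NM.E a.1 r.o
  ap f a b := f.1 a = b
  pr a b := r.p a b
  c0 := r.cW (WN.chk G.c0)
  c1 := r.cW (WN.chk G.c1)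

/-- The two-valued structure of a set `W` with a set `F` of functions. -/
def PStr {W : Type v} (lt : W → W → Prop) (om : W → Prop) (p : W → W → W)
    (F : (W → W) → Prop) (c0 c1 : W) : BStr W {f : W → W // F f} Prop where
  lt := lt
  eq a b := a = b
  om := om
  ap f a b := f.1 a = b
  pr := p
  c0 := c0
  c1 := c1

/-! ### Goals -/

/-- Names of elements: fullness, and agreement of the two structures. -/
def G_WNA : Prop := ∀ (Ω : Type u) [LinearOrder Ω] [WellFoundedLT Ω] (L : Type u)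
  [CompleteBooleanAlgebra L] (G : Grd Ω),
  (∀ A : WN Ω L → L, WN.Ext A → (∃ a, A a = ⨆ b, A b) ∧ (∃ a, A a = ⨅ b, A b) ∧
    (⨆ b, A b) = (⨆ i, A (WN.chk i)) ∧ (⨅ b, A b) = (⨅ i, A (WN.chk i))) ∧
  (∀ (φ : SO) (i : ℕ → WN Ω L) (e : ℕ → FN Ω L) (k : ℕ),
    WN.Ext (fun a => φ.val (M1 G L) (Function.update i k a) e)) ∧
  (∀ (φ : SO) (i : ℕ → Ω) (e : ℕ → FN Ω L),
    φ.val (M1 G L) (fun k => WN.chk (i k)) e = φ.val (M0 G L) i e)

/-- Fullness for names of functions. -/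
def G_FNF : Prop := ∀ (Ω : Type u) [LinearOrder Ω] [Nonempty Ω] (L : Type u)
  [CompleteBooleanAlgebra L] (A : FN Ω L → L), FN.Ext A →
  (∃ a, A a = ⨆ b, A b) ∧ (∃ a, A a = ⨅ b, A b)

/-- The value of a formula is extensional in the function variables. -/
def G_FNE : Prop := ∀ (Ω : Type u) [LinearOrder Ω] (L : Type u)
  [CompleteBooleanAlgebra L] (G : Grd Ω) (φ : SO) (e : ℕ → FN Ω L) (k : ℕ),
  (∀ i : ℕ → WN Ω L, FN.Ext (fun x => φ.val (M1 G L) i (Function.update e k x))) ∧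
  (∀ i : ℕ → Ω, FN.Ext (fun x => φ.val (M0 G L) i (Function.update e k x)))

/-- Facts on check names in the quotient. -/
def G_CHK : Prop := ∀ (Ω : Type u) [LinearOrder Ω] [WellFoundedLT Ω] (L : Type u)
  [CompleteBooleanAlgebra L] (G : Grd Ω) (U : UF L),
  (∀ (a : Ω) (x : BSet L), x.mem (ck a) = ⨆ b : Ω, ⨆ _ : b < a, x.eq (ck b)) ∧
  (∀ x : BSet L, x.mem (ckΩ Ω L) = ⨆ b : Ω, x.eq (ck b)) ∧
  (∀ a b : Ω, (ck a : BSet L).eq (ck b) = bo (a = b)) ∧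
  (∀ a b : Ω, (ck a : BSet L).mem (ck b) = bo (a < b)) ∧
  IsOrd NM.E (NM.mk U (ckΩ Ω L)) ∧
  IsOmega NM.E (NM.mk U (ck G.w0))

/-- Kuratowski pairs. -/
def G_PRN : Prop := ∀ (L : Type u) [CompleteBooleanAlgebra L] (U : UF L),
  (∀ a b x : BSet L, x.mem (upr a b) = x.eq a ⊔ x.eq b) ∧
  (∀ a b c d : BSet L, (kpr a b).eq (kpr c d) = a.eq c ⊓ b.eq d) ∧
  (∀ (a b : BSet L) (z : NM U), IsPr NM.E z (NM.mk U a) (NM.mk U b) ↔
    z = NM.mk U (kpr a b)) ∧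
  (∀ z z' a b a' b' : NM U, IsPr NM.E z a b → IsPr NM.E z' a' b' →
    (z = z' ↔ (a = a' ∧ b = b')))

/-- Sets named by names of elements. -/
def G_RZW : Prop := ∀ (Ω : Type u) [LinearOrder Ω] [WellFoundedLT Ω] (L : Type u)
  [CompleteBooleanAlgebra L] (G : Grd Ω) (U : UF L),
  (∀ (a : WN Ω L) (i : Ω), a.v i ≤ a.set.eq (ck i)) ∧
  (∀ a : WN Ω L, a.set.mem (ckΩ Ω L) = ⊤) ∧
  (∀ x : BSet L, U.mem (x.mem (ckΩ Ω L)) → ∃ a : WN Ω L, NM.mk U x = NM.mk U a.set) ∧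
  (∀ a b : WN Ω L, a.set.eq b.set = (M1 G L).eq a b) ∧
  (∀ a b : WN Ω L, a.set.mem b.set = (M1 G L).lt a b) ∧
  (∀ a : WN Ω L, a.set.mem (ck G.w0) = (M1 G L).om a)

/-- Sets named by names of functions. -/
def G_RZF : Prop := ∀ (Ω : Type u) [LinearOrder Ω] [WellFoundedLT Ω] (L : Type u)
  [CompleteBooleanAlgebra L] (G : Grd Ω),
  (∀ (f : FN Ω L) (a b : WN Ω L), (kpr a.set b.set).mem f.set = (M1 G L).ap f a b) ∧
  (∀ g : BSet L, ∃ f : FN Ω L,
    (⨅ z : BSet L, (z.mem g ⇨ ⨆ i : Ω, ⨆ j : Ω, z.eq (kpr (ck i) (ck j)))) ⊓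
    (⨅ i : Ω, ⨆ j : Ω, (kpr (ck i) (ck j)).mem g) ⊓
    (⨅ i : Ω, ⨅ j : Ω, ⨅ k : Ω, ⨅ _ : j ≠ k,
      ((kpr (ck i) (ck j)).mem g ⊓ (kpr (ck i) (ck k)).mem g)ᶜ) ≤ g.eq f.set)

/-- The interface exists. -/
def G_RZ : Prop := ∀ (Ω : Type u) [LinearOrder Ω] [WellFoundedLT Ω] (L : Type u)
  [CompleteBooleanAlgebra L] (G : Grd Ω) (U : UF L), Nonempty (Rz G U)

/-- The theorem of Los for the second-order language. -/
def G_LOS2 : Prop := ∀ (Ω : Type u) [LinearOrder Ω] [WellFoundedLT Ω] (L : Type u)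
  [CompleteBooleanAlgebra L] (G : Grd Ω) (U : UF L) (r : Rz G U) (φ : SO)
  (i : ℕ → WN Ω L) (e : ℕ → FN Ω L),
  φ.val r.MN (fun k => r.cW (i k)) (fun k => ⟨r.cF (e k), r.cF_rep (e k)⟩) ↔
    U.mem (φ.val (M1 G L) i e)

/-- Closure properties of `Π¹₁`. -/
def G_PI : Prop := ∀ (Ω : Type u) [LinearOrder Ω] (L : Type w)
  [CompleteBooleanAlgebra L] (G : Grd Ω),
  (∀ A B : (ℕ → FN Ω L) → L, Pi11 A → Pi11 B → Pi11 (fun e => A e ⊓ B e)) ∧
  (∀ A B : (ℕ → FN Ω L) → L, Pi11 A → Pi11 B → Pi11 (fun e => A e ⊔ B e)) ∧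
  (∀ A : Ω → (ℕ → FN Ω L) → L, (∀ i, Pi11 (A i)) → Pi11 (fun e => ⨅ i, A i e)) ∧
  (∀ (A : (ℕ → FN Ω L) → L) (k : ℕ), Pi11 A →
    Pi11 (fun e => ⨅ x, A (Function.update e k x)))

/-- Closure of `Π¹₁` under the existential quantifier over `Ω`. -/
def G_PIE : Prop := ∀ (Ω : Type u) [LinearOrder Ω] (L : Type u)
  [CompleteBooleanAlgebra L] (G : Grd Ω) (A : Ω → (ℕ → FN Ω L) → L),
  (∀ i, Pi11 (A i)) → Pi11 (fun e => ⨆ i, A i e)

/-- Atomic formulas. -/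
def G_ATOM : Prop := ∀ (Ω : Type u) [LinearOrder Ω] (L : Type w)
  [CompleteBooleanAlgebra L] (G : Grd Ω) (i : ℕ → Ω),
  (∀ b : L, Pi11 (fun _ : ℕ → FN Ω L => b)) ∧
  (∀ f a b, Pi11 (fun e => (SO.ap f a b).val (M0 G L) i e) ∧
    Pi11 (fun e => ((SO.ap f a b).val (M0 G L) i e)ᶜ))

/-- Formulas without existential function quantifiers. -/
def G_CLS : Prop := ∀ (Ω : Type u) [LinearOrder Ω] (L : Type u)
  [CompleteBooleanAlgebra L] (G : Grd Ω) (φ : SO) (i : ℕ → Ω),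
  (φ.cls true = true → Pi11 (fun e => φ.val (M0 G L) i e)) ∧
  (φ.cls false = true → Pi11 (fun e => (φ.val (M0 G L) i e)ᶜ))

/-- From formulas to `Σ¹₂`. -/
def G_S12 : Prop := ∀ (Ω : Type u) [LinearOrder Ω] (L : Type u)
  [CompleteBooleanAlgebra L] (G : Grd Ω) (l : List ℕ) (φ : SO), φ.cls true = true →
  ∀ (i : ℕ → Ω) (e : ℕ → FN Ω L),
    Sigma12 (fun x => (SO.exs l φ).val (M0 G L) i (Function.update e 0 x))

/-- Transfer of `Σ¹₂`. -/
def G_SIG : Prop := ∀ (Ω : Type u) [LinearOrder Ω] [WellFoundedLT Ω] (L : Type u)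
  [CompleteBooleanAlgebra L] (G : Grd Ω) (U : UF L) (r : Rz G U) (A : FN Ω L → L),
  Sigma12 A → ∀ A' : (El NM.E r.w → El NM.E r.w) → Prop,
  (∀ x, A' (r.cF x) ↔ U.mem (A x)) → IsSigma12 NM.E r.w A'

/-- The formula for Kurepa trees in a two-valued structure. -/
def G_KURP : Prop := ∀ (W : Type v) (lt : W → W → Prop) (om : W → Prop) (p : W → W → W)
  (F : (W → W) → Prop) (c0 c1 : W), (∀ i, IsZero lt i ↔ i = c0) → (∀ i, IsOne lt i ↔ i = c1) →
  ∀ (i : ℕ → W) (e : ℕ → {f : W → W // F f}),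
  (SO.kur.val (PStr lt om p F c0 c1) i e ↔ IsKur lt om p F (e 0).1)

/-- The transfer theorem. -/
def G_TRANS : Prop := ∀ (Ω : Type u) [LinearOrder Ω] [WellFoundedLT Ω] (L : Type u)
  [CompleteBooleanAlgebra L] (G : Grd Ω), (⊤ : L) ≠ ⊥ → HPhi G L →
  ∃ (N : Type (u + 1)) (E : N → N → Prop), IsZFC N E ∧ Phi E

end Pool.Agent.Helper97.Ku
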