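import Pool.Agent.Helper97.Ku.BSet

/-! Basic lemmas on Boolean-valued sets. -/

namespace Pool.Agent.Helper97.Ku

universe u

variable {L : Type u} [CompleteBooleanAlgebra L]

namespace BSet

/-- The index type of a Boolean-valued set. -/
def ix : BSet L → Type u
  | mk α _ _ => α

/-- The elements of a Boolean-valued set. -/
def el : (x : BSet L) → x.ix → BSet L
  | mk _ A _ => A

/-- The Boolean values of the elements of a Boolean-valued set. -/
def bv : (x : BSet L) → x.ix → L
  | mk _ _ B => B

theorem mem_mk (x : BSet L) (α : Type u) (A : α → BSet L) (B : α → L) :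
    x.mem (mk α A B) = ⨆ a, (B a ⊓ x.eq (A a)) := rfl

theorem mem_def (x y : BSet L) : x.mem y = ⨆ a, (y.bv a ⊓ x.eq (y.el a)) := by
  cases y; rfl

theorem eq_mk (α : Type u) (A : α → BSet L) (B : α → L) (α' : Type u) (A' : α' → BSet L)
    (B' : α' → L) : (mk α A B).eq (mk α' A' B') =
      (⨅ a, (B a ⇨ (A a).mem (mk α' A' B'))) ⊓
      (⨅ a', (B' a' ⇨ ⨆ a, (B a ⊓ (A a).eq (A' a')))) := rfl

theorem eq_refl (x : BSet L) : x.eq x = ⊤ := by
  induction x with
  | mk α A B ih =>
    rw [eq_top_iff, eq_mk]
    refine le_inf (le_iInf fun a => ?_) (le_iInf fun a => ?_)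
    · rw [le_himp_iff, top_inf_eq, mem_mk]
      refine le_trans ?_ (le_iSup _ a)
      rw [ih a, inf_top_eq]
    · rw [le_himp_iff, top_inf_eq]
      refine le_trans ?_ (le_iSup _ a)
      rw [ih a, inf_top_eq]

theorem eq_comm' (x y : BSet L) : x.eq y = y.eq x := by
  induction x generalizing y with
  | mk α A B ih =>
    cases y with
    | mk α' A' B' =>
      rw [eq_mk, eq_mk, inf_comm]
      congr 1
      · refine iInf_congr fun a' => ?_
        rw [mem_mk]
        congr 1
        refine iSup_congr fun a => ?_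
        rw [ih]
      · refine iInf_congr fun a => ?_
        rw [mem_mk]
        congr 1
        refine iSup_congr fun a' => ?_
        rw [ih]

theorem eq_mk' (α : Type u) (A : α → BSet L) (B : α → L) (α' : Type u) (A' : α' → BSet L)
    (B' : α' → L) : (mk α A B).eq (mk α' A' B') =
      (⨅ a, (B a ⇨ (A a).mem (mk α' A' B'))) ⊓
      (⨅ a', (B' a' ⇨ (A' a').mem (mk α A B))) := by
  rw [eq_mk]
  congr 1
  refine iInf_congr fun a => ?_
  rw [mem_mk]
  congr 1
  refine iSup_congr fun a' => ?_
  rw [eq_comm']

theorem eq_trans (x y z : BSet L) : x.eq y ⊓ y.eq z ≤ x.eq z := by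
  induction x generalizing y z with
  | mk α A B ih =>
    cases y with
    | mk α' A' B' =>
      cases z with
      | mk α'' A'' B'' =>
        rw [eq_mk (α' := α'') (A' := A'') (B' := B'') α A B]
        refine le_inf (le_iInf fun a => ?_) (le_iInf fun a'' => ?_)
        · rw [le_himp_iff]
          have h1 : (mk α A B).eq (mk α' A' B') ⊓ B a ≤ (A a).mem (mk α' A' B') := by
            rw [eq_mk, ← le_himp_iff]
            exact le_trans inf_le_left (iInf_le _ a)
          have h2 : (mk α A B).eq (mk α' A' B') ⊓ (mk α' A' B').eq (mk α'' A'' B'') ⊓ B a ≤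
              (A a).mem (mk α' A' B') ⊓ (mk α' A' B').eq (mk α'' A'' B'') := by
            refine le_inf ?_ (le_trans inf_le_left inf_le_right)
            refine le_trans ?_ h1
            exact inf_le_inf_right _ inf_le_left
          refine le_trans h2 ?_
          rw [mem_mk, iSup_inf_eq]
          refine iSup_le fun a' => ?_
          have h3 : B' a' ⊓ (mk α' A' B').eq (mk α'' A'' B'') ≤ (A' a').mem (mk α'' A'' B'') := by
            rw [inf_comm, ← le_himp_iff, eq_mk]
            exact le_trans inf_le_left (iInf_le _ a')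
          have h4 : B' a' ⊓ (A a).eq (A' a') ⊓ (mk α' A' B').eq (mk α'' A'' B'') ≤
              (A a).eq (A' a') ⊓ (A' a').mem (mk α'' A'' B'') := by
            refine le_inf (le_trans inf_le_left inf_le_right) (le_trans ?_ h3)
            exact inf_le_inf_right _ inf_le_left
          refine le_trans h4 ?_
          rw [mem_mk, mem_mk, inf_iSup_eq]
          refine iSup_mono fun a'' => ?_
          refine le_inf (le_trans inf_le_right inf_le_left) ?_
          refine le_trans ?_ (ih a (A' a') (A'' a''))
          exact inf_le_inf_left _ inf_le_right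
        · rw [le_himp_iff]
          have h1 : (mk α' A' B').eq (mk α'' A'' B'') ⊓ B'' a'' ≤
              ⨆ a', (B' a' ⊓ (A' a').eq (A'' a'')) := by
            rw [← le_himp_iff, eq_mk]
            exact le_trans inf_le_right (iInf_le _ a'')
          have h2 : (mk α A B).eq (mk α' A' B') ⊓ (mk α' A' B').eq (mk α'' A'' B'') ⊓ B'' a'' ≤
              (mk α A B).eq (mk α' A' B') ⊓ ⨆ a', (B' a' ⊓ (A' a').eq (A'' a'')) := by
            refine le_inf (le_trans inf_le_left inf_le_left) (le_trans ?_ h1)
            exact inf_le_inf_right _ inf_le_right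
          refine le_trans h2 ?_
          rw [inf_iSup_eq]
          refine iSup_le fun a' => ?_
          have h3 : (mk α A B).eq (mk α' A' B') ⊓ B' a' ≤ ⨆ a, (B a ⊓ (A a).eq (A' a')) := by
            rw [← le_himp_iff, eq_mk]
            exact le_trans inf_le_right (iInf_le _ a')
          have h4 : (mk α A B).eq (mk α' A' B') ⊓ (B' a' ⊓ (A' a').eq (A'' a'')) ≤
              (⨆ a, (B a ⊓ (A a).eq (A' a'))) ⊓ (A' a').eq (A'' a'') := by
            refine le_inf (le_trans ?_ h3) (le_trans inf_le_right inf_le_right)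
            exact inf_le_inf_left _ inf_le_left
          refine le_trans h4 ?_
          rw [iSup_inf_eq]
          refine iSup_mono fun a => ?_
          rw [inf_assoc]
          exact inf_le_inf_left _ (ih a (A' a') (A'' a''))

theorem mem_congr_left (x y z : BSet L) : x.eq y ⊓ x.mem z ≤ y.mem z := by
  rw [mem_def, mem_def, inf_iSup_eq]
  refine iSup_mono fun a => ?_
  refine le_inf (le_trans inf_le_right inf_le_left) ?_
  rw [eq_comm' x y]
  refine le_trans ?_ (eq_trans y x _)
  exact inf_le_inf_left _ inf_le_right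

/-- Bounded quantifiers. -/
theorem el_mem (x : BSet L) (a : x.ix) : x.bv a ≤ (x.el a).mem x := by
  rw [mem_def]
  refine le_trans ?_ (le_iSup _ a)
  rw [eq_refl, inf_top_eq]

theorem iInf_mem (x : BSet L) (φ : BSet L → L) (h : Ext φ) :
    (⨅ y, (y.mem x ⇨ φ y)) = ⨅ a, (x.bv a ⇨ φ (x.el a)) := by
  apply le_antisymm
  · refine le_iInf fun a => ?_
    refine le_trans (iInf_le _ (x.el a)) ?_
    exact himp_le_himp_right (el_mem x a)
  · refine le_iInf fun y => ?_
    rw [le_himp_iff, mem_def, inf_iSup_eq]
    refine iSup_le fun a => ?_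
    refine le_trans ?_ (h (x.el a) y)
    refine le_inf ?_ ?_
    · rw [eq_comm']
      exact le_trans inf_le_right inf_le_right
    · refine le_trans (inf_le_inf_right _ (iInf_le _ a)) ?_
      refine le_trans ?_ (himp_inf_le (a := x.bv a) (b := φ (x.el a)))
      exact inf_le_inf_left _ inf_le_left

theorem iSup_mem (x : BSet L) (φ : BSet L → L) (h : Ext φ) :
    (⨆ y, (y.mem x ⊓ φ y)) = ⨆ a, (x.bv a ⊓ φ (x.el a)) := by
  apply le_antisymm
  · refine iSup_le fun y => ?_
    rw [mem_def, iSup_inf_eq]
    refine iSup_mono fun a => ?_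
    refine le_inf (le_trans inf_le_left inf_le_left) ?_
    refine le_trans ?_ (h y (x.el a))
    exact inf_le_inf_right _ inf_le_right
  · refine iSup_le fun a => ?_
    refine le_trans ?_ (le_iSup _ (x.el a))
    exact inf_le_inf_right _ (el_mem x a)

theorem mem_congr_right (x y z : BSet L) : x.eq y ⊓ z.mem x ≤ z.mem y := by
  cases x with
  | mk α A B =>
    cases y with
    | mk α' A' B' =>
      rw [mem_mk z α A B, inf_iSup_eq]
      refine iSup_le fun a => ?_
      have h1 : (mk α A B).eq (mk α' A' B') ⊓ B a ≤ (A a).mem (mk α' A' B') := by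
        rw [eq_mk, ← le_himp_iff]
        exact le_trans inf_le_left (iInf_le _ a)
      refine le_trans ?_ (mem_congr_left (A a) z (mk α' A' B'))
      refine le_inf ?_ (le_trans ?_ h1)
      · rw [eq_comm' (A a) z]
        exact le_trans inf_le_right inf_le_right
      · exact inf_le_inf_left _ inf_le_left

theorem ext_le (x y : BSet L) :
    (⨅ z : BSet L, ((z.mem x ⇨ z.mem y) ⊓ (z.mem y ⇨ z.mem x))) ≤ x.eq y := by
  cases x with
  | mk α A B =>
    cases y with
    | mk α' A' B' =>
      rw [eq_mk']
      refine le_inf (le_iInf fun a => ?_) (le_iInf fun a => ?_)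
      · refine le_trans (iInf_le _ (A a)) (le_trans inf_le_left ?_)
        exact himp_le_himp_right (el_mem (mk α A B) a)
      · refine le_trans (iInf_le _ (A' a)) (le_trans inf_le_right ?_)
        exact himp_le_himp_right (el_mem (mk α' A' B') a)

theorem eq_le_himp (x y z : BSet L) : x.eq y ≤ (z.mem x ⇨ z.mem y) := by
  rw [le_himp_iff]
  exact mem_congr_right x y z

theorem eq_iff_ext (x y : BSet L) :
    x.eq y = (⨅ z : BSet L, ((z.mem x ⇨ z.mem y) ⊓ (z.mem y ⇨ z.mem x))) := by
  refine le_antisymm (le_iInf fun z => le_inf (eq_le_himp x y z) ?_) (ext_le x y)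
  rw [eq_comm']
  exact eq_le_himp y x z

/-! Extensional predicates. -/

theorem Ext.const (b : L) : Ext (fun _ : BSet L => b) := fun _ _ => inf_le_right

theorem Ext.mem_left (z : BSet L) : Ext (fun x : BSet L => x.mem z) := fun x y =>
  mem_congr_left x y z

theorem Ext.mem_right (z : BSet L) : Ext (fun x : BSet L => z.mem x) := fun x y =>
  mem_congr_right x y z

theorem Ext.mem_self : Ext (fun x : BSet L => x.mem x) := fun x y => by
  refine le_trans ?_ (mem_congr_right x y y)
  exact le_inf inf_le_left (mem_congr_left x y x)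

theorem Ext.eq_left (z : BSet L) : Ext (fun x : BSet L => x.eq z) := fun x y => by
  rw [eq_comm' x y]
  exact eq_trans y x z

theorem Ext.eq_right (z : BSet L) : Ext (fun x : BSet L => z.eq x) := fun x y => by
  rw [inf_comm]
  exact eq_trans z x y

theorem Ext.inf {φ ψ : BSet L → L} (h : Ext φ) (k : Ext ψ) : Ext (fun x => φ x ⊓ ψ x) :=
  fun x y => le_inf (le_trans (inf_le_inf_left _ inf_le_left) (h x y))
    (le_trans (inf_le_inf_left _ inf_le_right) (k x y))

theorem Ext.sup {φ ψ : BSet L → L} (h : Ext φ) (k : Ext ψ) : Ext (fun x => φ x ⊔ ψ x) :=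
  fun x y => by
    rw [inf_sup_left]
    exact sup_le_sup (h x y) (k x y)

theorem Ext.himp {φ ψ : BSet L → L} (h : Ext φ) (k : Ext ψ) : Ext (fun x => φ x ⇨ ψ x) :=
  fun x y => by
    rw [le_himp_iff]
    have h1 : x.eq y ⊓ φ y ≤ φ x := by rw [eq_comm']; exact h y x
    have h2 : x.eq y ⊓ (φ x ⇨ ψ x) ⊓ φ y ≤ x.eq y ⊓ ψ x := by
      refine le_inf (le_trans inf_le_left inf_le_left) ?_
      refine le_trans ?_ (himp_inf_le (a := φ x) (b := ψ x))
      refine le_inf (le_trans inf_le_left inf_le_right) (le_trans ?_ h1)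
      exact inf_le_inf_right _ inf_le_left
    exact le_trans h2 (k x y)

theorem Ext.compl {φ : BSet L → L} (h : Ext φ) : Ext (fun x => (φ x)ᶜ) := by
  have := Ext.himp h (Ext.const (⊥ : L))
  simpa [himp_bot] using this

theorem Ext.iInf {ι : Sort*} {φ : ι → BSet L → L} (h : ∀ i, Ext (φ i)) :
    Ext (fun x => ⨅ i, φ i x) := fun x y =>
  le_iInf fun i => le_trans (inf_le_inf_left _ (iInf_le _ i)) (h i x y)

theorem Ext.iSup {ι : Sort*} {φ : ι → BSet L → L} (h : ∀ i, Ext (φ i)) :
    Ext (fun x => ⨆ i, φ i x) := fun x y => by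
  rw [inf_iSup_eq]
  exact iSup_mono fun i => h i x y

end BSet

end Pool.Agent.Helper97.Ku
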