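import Pool.Agent.Helper97.Ku.RO

/-! The forcing: countable approximations to a Kurepa tree with rows indexed by the ordinals of
`Type`, together with countable partial functions collapsing all of them to `ω₁`. -/

namespace Pool.Agent.Helper97.Ku

open Set

/-- The ordinals of `Type`. -/
abbrev Kap : Type 1 := Ordinal.{0}

/-- The countable ordinals. -/
abbrev Om : Type 1 := Set.Iio (Ordinal.omega 1 : Ordinal.{0})

/-- Coordinates: rows of the tree and coordinates of the collapsing functions. -/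
inductive Coord : Type 1
  | row (ξ : Kap)
  | col (ξ : Kap) (ν : Om)

/-- Values at the coordinates: nodes of the tree, ordinals. -/
inductive Val : Type 1
  | nd (s : Set Om)
  | od (η : Kap)

/-- Restriction of a value to a level. -/
def Val.res (γ : Om) : Val → Val
  | .nd s => .nd (s ∩ Iio γ)
  | .od η => .od η

/-- Admissible values. -/
def Ok (S : Set (Set Om)) : Coord → Val → Prop
  | .row _, .nd s => s ∈ S
  | .col ξ _, .od η => η < ξ
  | _, _ => False

/-- Conditions. -/
@[ext]
structure Cond : Type 1 where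
  g : Om
  S : Set (Set Om)
  v : Coord → Option Val
  S_ct : S.Countable
  S_ne : S.Nonempty
  S_sub : ∀ s ∈ S, s ⊆ Iio g
  S_spl : ∀ s ∈ S, ∀ β < g, ∃ s' ∈ S, s' ∩ Iio β = s ∩ Iio β ∧ ¬ (β ∈ s' ↔ β ∈ s)
  v_ct : {c | v c ≠ none}.Countable
  v_ok : ∀ c x, v c = some x → Ok S c x

theorem Val.res_res {γ δ : Om} (h : γ ≤ δ) (x : Val) : (x.res δ).res γ = x.res γ := by
  cases x with
  | nd s =>
    simp only [Val.res, Val.nd.injEq]
    ext t
    simp only [mem_inter_iff, mem_Iio]
    constructor
    · rintro ⟨⟨h1, _⟩, h3⟩; exact ⟨h1, h3⟩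
    · rintro ⟨h1, h3⟩; exact ⟨⟨h1, lt_of_lt_of_le h3 h⟩, h3⟩
  | od η => rfl

theorem inter_inter_Iio {γ δ : Om} (h : γ ≤ δ) (s : Set Om) :
    (s ∩ Iio δ) ∩ Iio γ = s ∩ Iio γ := by
  ext t
  simp only [mem_inter_iff, mem_Iio]
  constructor
  · rintro ⟨⟨h1, _⟩, h3⟩; exact ⟨h1, h3⟩
  · rintro ⟨h1, h3⟩; exact ⟨⟨h1, lt_of_lt_of_le h3 h⟩, h3⟩

theorem Cond.res_self (p : Cond) {c : Coord} {x : Val} (h : p.v c = some x) :
    x.res p.g = x := by
  have h1 := p.v_ok c x h
  cases x with
  | nd s =>
    cases c with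
    | row ξ =>
      simp only [Val.res, Val.nd.injEq]
      exact inter_eq_left.mpr (p.S_sub s h1)
    | col ξ ν => exact absurd h1 (by simp [Ok])
  | od η => rfl

instance : PartialOrder Cond where
  le q p := p.g ≤ q.g ∧ (fun s => s ∩ Iio p.g) '' q.S = p.S ∧
    ∀ c x, p.v c = some x → ∃ y, q.v c = some y ∧ y.res p.g = x
  le_refl p := by
    refine ⟨le_rfl, ?_, fun c x h => ⟨x, h, p.res_self h⟩⟩
    ext s
    constructor
    · rintro ⟨t, ht, rfl⟩
      simp only
      rw [inter_eq_left.mpr (p.S_sub t ht)]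
      exact ht
    · intro hs
      exact ⟨s, hs, inter_eq_left.mpr (p.S_sub s hs)⟩
  le_trans r q p h k := by
    refine ⟨k.1.trans h.1, ?_, fun c x hx => ?_⟩
    · rw [← k.2.1, ← h.2.1, image_image]
      refine image_congr fun s _ => ?_
      exact (inter_inter_Iio k.1 s).symm
    · obtain ⟨y, hy, hy'⟩ := k.2.2 c x hx
      obtain ⟨z, hz, hz'⟩ := h.2.2 c y hy
      refine ⟨z, hz, ?_⟩
      rw [← hy', ← hz', Val.res_res k.1]
  le_antisymm p q h k := by
    have hg : p.g = q.g := le_antisymm k.1 h.1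
    have hv : p.v = q.v := by
      funext c
      cases hq : q.v c with
      | none =>
        cases hp : p.v c with
        | none => rfl
        | some x =>
          obtain ⟨y, hy, _⟩ := k.2.2 c x hp
          rw [hq] at hy
          exact absurd hy (by simp)
      | some x =>
        obtain ⟨y, hy, hy'⟩ := h.2.2 c x hq
        rw [hy, ← hy', ← hg, p.res_self hy]
    have hS : p.S = q.S := by
      rw [← h.2.1, ← hg]
      ext s
      constructor
      · intro hs
        exact ⟨s, hs, inter_eq_left.mpr (p.S_sub s hs)⟩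
      · rintro ⟨t, ht, rfl⟩
        simp only
        rw [inter_eq_left.mpr (p.S_sub t ht)]
        exact ht
    exact Cond.ext hg hS hv

theorem Cond.le_def {q p : Cond} : q ≤ p ↔ p.g ≤ q.g ∧ (fun s => s ∩ Iio p.g) '' q.S = p.S ∧
    ∀ c x, p.v c = some x → ∃ y, q.v c = some y ∧ y.res p.g = x := Iff.rfl

/-- Support of a condition. -/
def Cond.supp (p : Cond) : Set Coord := {c | p.v c ≠ none}

theorem Cond.supp_countable (p : Cond) : p.supp.Countable := p.v_ct

theorem Cond.supp_mono {p q : Cond} (h : q ≤ p) : p.supp ⊆ q.supp := by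
  intro c hc
  obtain ⟨x, hx⟩ := Option.ne_none_iff_exists'.mp hc
  obtain ⟨y, hy, _⟩ := h.2.2 c x hx
  simp [Cond.supp, hy]

open Classical in
/-- Restriction of a condition to a set of coordinates. -/
noncomputable def Cond.rs (p : Cond) (D : Set Coord) : Cond where
  g := p.g
  S := p.S
  v c := if c ∈ D then p.v c else none
  S_ct := p.S_ct
  S_ne := p.S_ne
  S_sub := p.S_sub
  S_spl := p.S_spl
  v_ct := by
    refine p.v_ct.mono fun c hc => ?_
    simp only [mem_ofPred_eq] at hc ⊢
    intro h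
    exact hc (by simp [h])
  v_ok c x h := by
    by_cases hc : c ∈ D
    · rw [if_pos hc] at h; exact p.v_ok c x h
    · rw [if_neg hc] at h; exact absurd h (by simp)

@[simp] theorem Cond.rs_g (p : Cond) (D : Set Coord) : (p.rs D).g = p.g := rfl
@[simp] theorem Cond.rs_S (p : Cond) (D : Set Coord) : (p.rs D).S = p.S := rfl

theorem Cond.rs_v_mem (p : Cond) {D : Set Coord} {c : Coord} (h : c ∈ D) :
    (p.rs D).v c = p.v c := by simp [Cond.rs, h]

theorem Cond.rs_v_not (p : Cond) {D : Set Coord} {c : Coord} (h : c ∉ D) :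
    (p.rs D).v c = none := by simp [Cond.rs, h]

theorem Cond.supp_rs (p : Cond) (D : Set Coord) : (p.rs D).supp = p.supp ∩ D := by
  ext c
  by_cases h : c ∈ D
  · simp [Cond.supp, Cond.rs, h]
  · simp [Cond.supp, Cond.rs, h]

theorem Cond.supp_rs_subset (p : Cond) (D : Set Coord) : (p.rs D).supp ⊆ D := by
  rw [Cond.supp_rs]; exact inter_subset_right

theorem Cond.rs_eq_self {p : Cond} {D : Set Coord} (h : p.supp ⊆ D) : p.rs D = p := by
  refine Cond.ext rfl rfl ?_
  funext c
  by_cases hc : c ∈ D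
  · exact p.rs_v_mem hc
  · rw [p.rs_v_not hc]
    by_contra h1
    exact hc (h (fun h2 => h1 h2.symm))

theorem Cond.le_rs (p : Cond) (D : Set Coord) : p ≤ p.rs D := by
  refine ⟨le_rfl, (le_refl p).2.1, fun c x h => ?_⟩
  by_cases hc : c ∈ D
  · rw [p.rs_v_mem hc] at h
    exact ⟨x, h, p.res_self h⟩
  · rw [p.rs_v_not hc] at h
    exact absurd h (by simp)

theorem Cond.rs_mono {p q : Cond} (h : q ≤ p) (D : Set Coord) : q.rs D ≤ p.rs D := by
  refine ⟨h.1, h.2.1, fun c x hx => ?_⟩
  by_cases hc : c ∈ D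
  · rw [p.rs_v_mem hc] at hx
    rw [q.rs_v_mem hc]
    exact h.2.2 c x hx
  · rw [p.rs_v_not hc] at hx
    exact absurd hx (by simp)

theorem Cond.rs_rs (p : Cond) (D D' : Set Coord) : (p.rs D).rs D' = p.rs (D ∩ D') := by
  refine Cond.ext rfl rfl ?_
  funext c
  by_cases h : c ∈ D <;> by_cases h' : c ∈ D' <;> simp [Cond.rs, h, h']

theorem Cond.rs_rs_of_subset (p : Cond) {D D' : Set Coord} (h : D ⊆ D') :
    (p.rs D').rs D = p.rs D := by
  rw [p.rs_rs, inter_eq_right.mpr h]

theorem Cond.rs_le_rs (p : Cond) {D D' : Set Coord} (h : D ⊆ D') : p.rs D' ≤ p.rs D := by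
  rw [← p.rs_rs_of_subset h]; exact Cond.le_rs _ _

theorem Cond.rs_eq_of_subset {p q : Cond} {D D' : Set Coord} (h : D ⊆ D')
    (e : p.rs D' = q.rs D') : p.rs D = q.rs D := by
  rw [← p.rs_rs_of_subset h, e, q.rs_rs_of_subset h]

/-- `d` extends the tree part of `p` and is compatible with `p`. -/
def Cmp (p d : Cond) : Prop :=
  p.g ≤ d.g ∧ (fun s => s ∩ Iio p.g) '' d.S = p.S ∧
    ∀ c x y, p.v c = some x → d.v c = some y → y.res p.g = x

open Classical in
/-- A chosen extension of a value to a higher level. -/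
noncomputable def extv (γ : Om) (S : Set (Set Om)) : Val → Val
  | .nd s => .nd (if h : ∃ s' ∈ S, s' ∩ Iio γ = s then h.choose else s)
  | .od η => .od η

theorem Cmp.extv_ok {p d : Cond} (h : Cmp p d) {c : Coord} {x : Val} (hx : p.v c = some x) :
    Ok d.S c (extv p.g d.S x) ∧ (extv p.g d.S x).res p.g = x := by
  have h1 := p.v_ok c x hx
  cases x with
  | nd s =>
    cases c with
    | row ξ =>
      have h2 : ∃ s' ∈ d.S, s' ∩ Iio p.g = s := by
        have : s ∈ (fun s => s ∩ Iio p.g) '' d.S := by rw [h.2.1]; exact h1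
        obtain ⟨t, ht, ht'⟩ := this
        exact ⟨t, ht, ht'⟩
      simp only [extv, dif_pos h2, Ok, Val.res, Val.nd.injEq]
      exact h2.choose_spec
    | col ξ ν => exact absurd h1 (by simp [Ok])
  | od η =>
    cases c with
    | row ξ => exact absurd h1 (by simp [Ok])
    | col ξ ν => exact ⟨h1, rfl⟩

/-- The amalgamation of `p` and `d`. -/
noncomputable def am (p d : Cond) (h : Cmp p d) : Cond where
  g := d.g
  S := d.S
  v c := match d.v c with
    | some y => some y
    | none => (p.v c).map (extv p.g d.S)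
  S_ct := d.S_ct
  S_ne := d.S_ne
  S_sub := d.S_sub
  S_spl := d.S_spl
  v_ct := by
    refine (p.v_ct.union d.v_ct).mono fun c hc => ?_
    by_contra h1
    simp only [mem_union, mem_ofPred_eq, not_or, not_not] at h1
    exact hc (by simp [h1.1, h1.2])
  v_ok c x hx := by
    cases hd : d.v c with
    | some y =>
      rw [hd] at hx
      simp only [Option.some.injEq] at hx
      rw [← hx]
      exact d.v_ok c y hd
    | none =>
      rw [hd] at hx
      simp only [Option.map_eq_some_iff] at hx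
      obtain ⟨y, hy, rfl⟩ := hx
      exact (h.extv_ok hy).1

@[simp] theorem am_g (p d : Cond) (h : Cmp p d) : (am p d h).g = d.g := rfl
@[simp] theorem am_S (p d : Cond) (h : Cmp p d) : (am p d h).S = d.S := rfl

theorem am_v_some {p d : Cond} (h : Cmp p d) {c : Coord} {y : Val} (hd : d.v c = some y) :
    (am p d h).v c = some y := by simp [am, hd]

theorem am_v_none {p d : Cond} (h : Cmp p d) {c : Coord} (hd : d.v c = none) :
    (am p d h).v c = (p.v c).map (extv p.g d.S) := by simp [am, hd]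

theorem am_le_right {p d : Cond} (h : Cmp p d) : am p d h ≤ d :=
  ⟨le_rfl, (le_refl d).2.1, fun _ x hx => ⟨x, am_v_some h hx, d.res_self hx⟩⟩

theorem am_le_left {p d : Cond} (h : Cmp p d) : am p d h ≤ p := by
  refine ⟨h.1, h.2.1, fun c x hx => ?_⟩
  cases hd : d.v c with
  | some y => exact ⟨y, am_v_some h hd, h.2.2 c x y hx hd⟩
  | none =>
    refine ⟨extv p.g d.S x, ?_, (h.extv_ok hx).2⟩
    rw [am_v_none h hd, hx]; rfl

theorem am_supp {p d : Cond} (h : Cmp p d) : (am p d h).supp = p.supp ∪ d.supp := by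
  ext c
  cases hd : d.v c with
  | some y => simp [Cond.supp, am_v_some h hd, hd]
  | none => simp [Cond.supp, am_v_none h hd, hd]

/-- If `d` extends the restriction of `p` to `D` and lives on `D`, then it is compatible. -/
theorem cmp_of_le {p d : Cond} {D : Set Coord} (h : d ≤ p.rs D) (hd : d.supp ⊆ D) :
    Cmp p d := by
  refine ⟨h.1, h.2.1, fun c x y hx hy => ?_⟩
  have hc : c ∈ D := hd (by simp [Cond.supp, hy])
  obtain ⟨z, hz, hz'⟩ := h.2.2 c x (by rw [p.rs_v_mem hc]; exact hx)
  rw [hy] at hz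
  simp only [Option.some.injEq] at hz
  rw [hz]; exact hz'

/-- The restriction of the amalgamation is `d`. -/
theorem am_rs {p d : Cond} {D : Set Coord} (h : d ≤ p.rs D) (hd : d.supp ⊆ D) :
    (am p d (cmp_of_le h hd)).rs D = d := by
  refine Cond.ext rfl rfl ?_
  funext c
  by_cases hc : c ∈ D
  · rw [Cond.rs_v_mem _ hc]
    cases hdc : d.v c with
    | some y => exact am_v_some _ hdc
    | none =>
      rw [am_v_none _ hdc]
      cases hp : p.v c with
      | none => rfl
      | some x =>
        obtain ⟨y, hy, _⟩ := h.2.2 c x (by rw [p.rs_v_mem hc]; exact hp)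
        rw [hdc] at hy
        exact absurd hy (by simp)
  · rw [Cond.rs_v_not _ hc]
    by_contra h1
    exact hc (hd (fun h2 => h1 h2.symm))

/-- Restriction of the amalgamation to a larger set. -/
theorem am_rs_of_subset {p d : Cond} {D D' : Set Coord} (h : d ≤ p.rs D) (hd : d.supp ⊆ D)
    (hDD' : D ⊆ D') : (am p d (cmp_of_le h hd)).rs D' =
      am (p.rs D') d (cmp_of_le (D := D) (by rw [p.rs_rs_of_subset hDD']; exact h) hd) := by
  refine Cond.ext rfl rfl ?_
  funext c
  by_cases hc : c ∈ D'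
  · rw [Cond.rs_v_mem _ hc]
    cases hdc : d.v c with
    | some y => rw [am_v_some _ hdc, am_v_some _ hdc]
    | none => rw [am_v_none _ hdc, am_v_none _ hdc, Cond.rs_v_mem _ hc]; rfl
  · rw [Cond.rs_v_not _ hc]
    have hdc : d.v c = none := by
      by_contra h1
      exact hc (hDD' (hd h1))
    rw [am_v_none _ hdc, Cond.rs_v_not _ hc]; rfl

open Classical in
/-- Changing one value. -/
noncomputable def upd (p : Cond) (c : Coord) (x : Val) (h : Ok p.S c x) : Cond where
  g := p.g
  S := p.S
  v c' := if c' = c then some x else p.v c'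
  S_ct := p.S_ct
  S_ne := p.S_ne
  S_sub := p.S_sub
  S_spl := p.S_spl
  v_ct := by
    refine (p.v_ct.union (countable_singleton c)).mono fun c' hc' => ?_
    by_cases h1 : c' = c
    · exact Or.inr h1
    · left
      simpa [h1] using hc'
  v_ok c' y hy := by
    by_cases h1 : c' = c
    · subst h1
      simp only [if_true, Option.some.injEq] at hy
      rw [← hy]; exact h
    · simp only [h1, if_false] at hy
      exact p.v_ok c' y hy

@[simp] theorem upd_g (p : Cond) (c : Coord) (x : Val) (h : Ok p.S c x) :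
    (upd p c x h).g = p.g := rfl
@[simp] theorem upd_S (p : Cond) (c : Coord) (x : Val) (h : Ok p.S c x) :
    (upd p c x h).S = p.S := rfl

theorem upd_v_self (p : Cond) (c : Coord) (x : Val) (h : Ok p.S c x) :
    (upd p c x h).v c = some x := by simp [upd]

theorem upd_v_ne (p : Cond) {c c' : Coord} (x : Val) (h : Ok p.S c x) (hc : c' ≠ c) :
    (upd p c x h).v c' = p.v c' := by simp [upd, hc]

theorem upd_le (p : Cond) {c : Coord} (x : Val) (h : Ok p.S c x) (hc : p.v c = none) :
    upd p c x h ≤ p := by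
  refine ⟨le_rfl, (le_refl p).2.1, fun c' y hy => ?_⟩
  have h1 : c' ≠ c := by
    rintro rfl
    rw [hc] at hy
    exact absurd hy (by simp)
  exact ⟨y, by rw [upd_v_ne p x h h1]; exact hy, p.res_self hy⟩

end Pool.Agent.Helper97.Ku
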