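import Pool.Agent.Helper97.Ku.Quo

/-! Goals for the parts A and B: the Boolean-valued universe satisfies ZFC. -/

namespace Pool.Agent.Helper97.Ku

universe u

open BSet

/-- Mixtures. -/
def G_MIX : Prop := ∀ (L : Type u) [CompleteBooleanAlgebra L] (ι : Type u) (a : ι → L)
  (x : ι → BSet L), (∀ i j, i ≠ j → a i ⊓ a j = ⊥) → ∃ y : BSet L, ∀ i, a i ≤ y.eq (x i)

/-- Fullness, relative to an extensional predicate with a global element. -/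
def G_FULL : Prop := ∀ (L : Type u) [CompleteBooleanAlgebra L] (φ ψ : BSet L → L),
  Ext φ → Ext ψ → (∃ x, ψ x = ⊤) →
  (∃ x, ψ x = ⊤ ∧ φ x = ⨆ y, (ψ y ⊓ φ y)) ∧ (∃ x, ψ x = ⊤ ∧ φ x = ⨅ y, (ψ y ⇨ φ y))

/-- Pairing, union, power set and separation. -/
def G_SETS : Prop := ∀ (L : Type u) [CompleteBooleanAlgebra L],
  (∀ a b : BSet L, ∃ c : BSet L, ∀ x : BSet L, x.mem c = x.eq a ⊔ x.eq b) ∧
  (∀ a : BSet L, ∃ c : BSet L, ∀ x : BSet L, x.mem c = ⨆ y : BSet L, (y.mem a ⊓ x.mem y)) ∧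
  (∀ a : BSet L, ∃ c : BSet L, ∀ x : BSet L, x.mem c = ⨅ z : BSet L, (z.mem x ⇨ z.mem a)) ∧
  (∀ (φ : BSet L → L), Ext φ → ∀ a : BSet L, ∃ b : BSet L, ∀ x : BSet L, x.mem b = x.mem a ⊓ φ x)

/-- Collection. -/
def G_COLL : Prop := ∀ (L : Type u) [CompleteBooleanAlgebra L] (φ : BSet L → BSet L → L),
  Ext2 φ → ∀ a : BSet L, ∃ b : BSet L, ∀ x : BSet L,
    x.mem a ⊓ (⨆ y, φ x y) ≤ ⨆ y, (y.mem b ⊓ φ x y)

/-- Foundation. -/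
def G_FOUND : Prop := ∀ (L : Type u) [CompleteBooleanAlgebra L] (a : BSet L),
  (⨆ x : BSet L, x.mem a) ≤ ⨆ x : BSet L, (x.mem a ⊓ ⨅ y : BSet L, (y.mem x ⇨ (y.mem a)ᶜ))

/-- Infinity. -/
def G_INF : Prop := ∀ (L : Type u) [CompleteBooleanAlgebra L], ∃ c : BSet L,
  (∃ o : BSet L, o.mem c = ⊤ ∧ ∀ x : BSet L, x.mem o = ⊥) ∧
  ∀ x : BSet L, x.mem c ≤ ⨆ y : BSet L, (y.mem c ⊓
    ⨅ z : BSet L, ((z.mem y ⇨ (z.mem x ⊔ z.eq x)) ⊓ ((z.mem x ⊔ z.eq x) ⇨ z.mem y)))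

/-- Choice: `b` is the Boolean value of: `a` is a family of nonempty pairwise disjoint sets. -/
def G_CHOICE : Prop := ∀ (L : Type u) [CompleteBooleanAlgebra L] (a : BSet L) (b : L),
  (∀ x : BSet L, b ⊓ x.mem a ≤ ⨆ y : BSet L, y.mem x) →
  (∀ x y z : BSet L, b ⊓ x.mem a ⊓ y.mem a ⊓ z.mem x ⊓ z.mem y ≤ x.eq y) →
  ∃ c : BSet L, (∀ x : BSet L, b ⊓ x.mem a ≤ ⨆ z : BSet L, (z.mem x ⊓ z.mem c)) ∧
    (∀ x z z' : BSet L, b ⊓ x.mem a ⊓ (z.mem x ⊓ z.mem c) ⊓ (z'.mem x ⊓ z'.mem c) ≤ z.eq z')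

/-- Ultrafilters exist. -/
def G_UFEX : Prop := ∀ (L : Type u) [CompleteBooleanAlgebra L] (a : L), a ≠ ⊥ →
  ∃ U : UF L, U.mem a

/-- The theorem of Los. -/
def G_LOS : Prop := ∀ (L : Type u) [CompleteBooleanAlgebra L] (U : UF L) (φ : Fml)
  (w : ℕ → BSet L), φ.sat (NM.E (U := U)) (fun i => NM.mk U (w i)) ↔ U.mem (φ.val w)

/-- The quotient is a model of ZFC. -/
def G_ZFC : Prop := ∀ (L : Type u) [CompleteBooleanAlgebra L] (U : UF L),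
  IsZFC (NM U) (NM.E (U := U))

end Pool.Agent.Helper97.Ku
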