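import Pool.Agent.Helper97.Ku.Names

/-! Goals for the combinatorial part. -/

namespace Pool.Agent.Helper97.Ku

open Set

/-- The ground structure exists. -/
def G_GRD : Prop := Nonempty (Grd Om)

/-- Closure properties of `Dn`. -/
def G_DN : Prop :=
  (∀ (D : Set Coord) (b : BA), Dn D b → Dn D bᶜ) ∧
  (∀ (D : Set Coord) (a b : BA), Dn D a → Dn D b → Dn D (a ⊓ b)) ∧
  (∀ (D : Set Coord) (a b : BA), Dn D a → Dn D b → Dn D (a ⊔ b)) ∧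
  (∀ (D : Set Coord) (a b : BA), Dn D a → Dn D b → Dn D (a ⇨ b)) ∧
  (∀ (D : Set Coord) (I : Type 1) (b : I → BA), (∀ i, Dn D (b i)) → Dn D (⨅ i, b i)) ∧
  (∀ (D : Set Coord) (I : Type 1) (b : I → BA), (∀ i, Dn D (b i)) → Dn D (⨆ i, b i)) ∧
  (∀ (D : Set Coord) (P : Prop), Dn D (bo P)) ∧
  (∀ (D D' : Set Coord) (b : BA), D ⊆ D' → Dn D b → Dn D' b) ∧
  (∀ (D : Set Coord) (b : BA) (p : Cond), Dn D b → (p ∈ b ↔ p.rs D ∈ b))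

/-- Limits of decreasing sequences. -/
def G_LIM : Prop := ∀ (p : ℕ → Cond) (γ : Om) (B : Set (Set Om)), Desc p →
  (∀ k, (p k).g ≤ γ) → (∀ β, β < γ → ∃ k, β < (p k).g) → B.Countable →
  (∀ t ∈ B, t ⊆ Iio γ ∧ ∀ k, t ∩ Iio (p k).g ∈ (p k).S) →
  (∀ k, ∀ s ∈ (p k).S, ∃ t ∈ B, t ∩ Iio (p k).g = s) →
  (∀ ξ k s, (p k).v (.row ξ) = some (.nd s) →
    ∃ t ∈ B, ∀ j, k ≤ j → (p j).v (.row ξ) = some (.nd (t ∩ Iio (p j).g))) →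
  ∃ q : Cond, q.g = γ ∧ q.S = B ∧ (∀ k, q ≤ p k) ∧ q.supp = ⋃ k, (p k).supp

/-- Restrictions of limits. -/
def G_LIMU : Prop := ∀ (p p' : ℕ → Cond) (q q' : Cond) (D : Set Coord), Desc p → Desc p' →
  q.g = q'.g → q.S = q'.S → (∀ β, β < q.g → ∃ k, β < (p k).g) →
  (∀ k, q ≤ p k) → (∀ k, q' ≤ p' k) → (q.supp = ⋃ k, (p k).supp) →
  (q'.supp = ⋃ k, (p' k).supp) → (∀ k, (p k).rs D = (p' k).rs D) → q.rs D = q'.rs D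

/-- The forcing is σ-closed. -/
def G_SIGC : Prop := ∀ p : ℕ → Cond, Desc p → ∃ q : Cond, ∀ k, q ≤ p k

/-- σ-closure, excluding one branch. -/
def G_SIGX : Prop := ∀ (p : ℕ → Cond) (a : Set Om), Desc p →
  (∀ k, (p k).g < (p (k + 1)).g) →
  (∀ ξ k s, (p k).v (.row ξ) = some (.nd s) →
    ∃ j, k ≤ j ∧ (p j).v (.row ξ) ≠ some (.nd (a ∩ Iio (p j).g))) →
  ∃ q : Cond, (∀ k, q ≤ p k) ∧ (∀ β, β < q.g → ∃ k, β < (p k).g) ∧ a ∩ Iio q.g ∉ q.S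

/-- Extension to a higher level. -/
def G_LIFT : Prop := ∀ (p : Cond) (γ : Om), p.g ≤ γ → ∃ q : Cond, q ≤ p ∧ q.g = γ ∧ q.v = p.v

/-- Countably many dense sets. -/
def G_CNTD : Prop := ∀ (ι : Type 1) [Countable ι] (p : Cond) (D : ι → Set Cond),
  (∀ n, ∀ q, q ≤ p → ∃ r, r ≤ q ∧ r ∈ D n) → (∀ n q r, r ≤ q → q ∈ D n → r ∈ D n) →
  ∃ q, q ≤ p ∧ ∀ n, q ∈ D n

/-- Few conditions on a small set of coordinates. -/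
def G_PDS : Prop := ∀ D : Set Coord, Small.{0} D → Small.{0} {p : Cond // p.supp ⊆ D}

/-- Closure of small sets of coordinates. -/
def G_CLO : Prop := ∀ (e : Cond → Set Coord) (D0 : Set Coord), (∀ d, Small.{0} (e d)) →
  Small.{0} D0 → ∃ D, D0 ⊆ D ∧ Small.{0} D ∧ ∀ d : Cond, d.supp ⊆ D → e d ⊆ D

/-- Small families of truth values depend on a small set of coordinates. -/
def G_CAP : Prop := ∀ (I : Type 1) (b : I → BA) (D0 : Set Coord), Small.{0} I →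
  Small.{0} D0 → ∃ D, D0 ⊆ D ∧ Small.{0} D ∧ ∀ i, Dn D (b i)

/-- Decisions of captured families. -/
def G_RD : Prop := ∀ (I : Type 1) (b : I → BA) (D : Set Coord) (q : Cond), Capt b D q →
  q.supp ⊆ D → ∀ i v, v ≤ q → (v ∈ b i → v.rs D ∈ b i) ∧ (v ∈ (b i)ᶜ → v.rs D ∈ (b i)ᶜ)

/-- Intersections. -/
def G_INT : Prop := ∀ (I : Type 1) (b : I → BA) (A B : Set Coord) (q : Cond), Capt b A q →
  Capt b B q → Capt b (A ∩ B) q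

/-- Splitting two conditions. -/
def G_SP2 : Prop := ∀ (I : Type 1) (b : I → BA) (D : Set Coord) (p : Cond),
  (∀ q, q ≤ p → ¬ Capt b D q) → ∀ u v, u ≤ p → v ≤ p → u.rs D = v.rs D →
  ∃ i u' v', u' ≤ u ∧ v' ≤ v ∧ u'.rs D = v'.rs D ∧ Opp b i u' v'

/-- One level of the fusion. -/
def G_STEP : Prop := ∀ (I : Type 1) (b : I → BA) (D : ℕ → Set Coord) (k : ℕ) (p : Cond)
  (Q : (ℕ → Bool) → Cond), Monotone D → (∀ q, q ≤ p → ¬ Capt b (D k) q) → Sys D k k Q →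
  (∀ σ, Q σ ≤ p) → ∃ (Q' : (ℕ → Bool) → Cond) (n : (ℕ → Bool) → I), Sys D k (k + 1) Q' ∧
    (∀ σ, Q' σ ≤ Q σ) ∧ (∀ σ τ, Agree k σ τ → n σ = n τ) ∧
    ∀ σ τ, Agree k σ τ → σ k ≠ τ k → Opp b (n σ) (Q' σ) (Q' τ)

/-- The whole fusion sequence. -/
def G_REC : Prop := ∀ (I : Type 1) (b : I → BA) (D0 : Set Coord) (p : Cond),
  (∀ q, q ≤ p → ∀ F : Set Coord, F.Finite → ¬ Capt b (D0 ∪ F) q) →
  ∃ (D : ℕ → Set Coord) (Q : ℕ → (ℕ → Bool) → Cond) (n : ℕ → (ℕ → Bool) → I),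
    D 0 = D0 ∧ Monotone D ∧ (∀ k, Sys D k k (Q k)) ∧ (∀ k σ, Q (k + 1) σ ≤ Q k σ) ∧
    (∀ σ, Q 0 σ ≤ p) ∧ (∀ k σ τ, Agree k σ τ → n k σ = n k τ) ∧
    (∀ k σ τ, Agree k σ τ → σ k ≠ τ k → Opp b (n k σ) (Q (k + 1) σ) (Q (k + 1) τ)) ∧
    ∀ k σ c, c ∈ (Q k σ).supp → ∃ j, c ∈ D j

/-- The fusion. -/
def G_FUS : Prop := ∀ (I : Type 1) (b : I → BA) (D0 : Set Coord) (p : Cond),
  (∀ q, q ≤ p → ∀ F : Set Coord, F.Finite → ¬ Capt b (D0 ∪ F) q) →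
  ∃ (P : (ℕ → Bool) → Cond) (n : ℕ → (ℕ → Bool) → I), (∀ σ, P σ ≤ p) ∧
    (∀ σ τ, (P σ).rs D0 = (P τ).rs D0) ∧ (∀ k σ τ, Agree k σ τ → n k σ = n k τ) ∧
    ∀ k σ τ, Agree k σ τ → σ k ≠ τ k → Opp b (n k σ) (P σ) (P τ)

/-- Finite dependence of branches. -/
def G_FD : Prop := ∀ (G : Grd Om) (D0 : Set Coord) (x ht : FN Om BA) (en : Om → FN Om BA)
  (b : Om → BA) (p : Cond), (∀ i j, Dn D0 (x.v i j)) → (∀ i j, Dn D0 (ht.v i j)) →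
  (∀ δ i j, Dn D0 ((en δ).v i j)) → TreeF G p x ht → EnF G p ht en → BrF G p x ht b →
  ∃ q, q ≤ p ∧ ∃ F : Set Coord, F.Finite ∧ Capt b (D0 ∪ F) q

/-- Good triples exist. -/
def G_GOOD : Prop := ∀ (b : Om → BA) (D0 : Set Coord) (p : Cond), Small.{0} D0 →
  (∀ q, q ≤ p → ¬ Capt b D0 q) →
  (∀ q, q ≤ p → ∃ r, r ≤ q ∧ ∃ F : Set Coord, F.Finite ∧ Capt b (D0 ∪ F) r) →
  ∃ q, q ≤ p ∧ ∃ D ξ0 s0, D0 ⊆ D ∧ Small.{0} D ∧ Good b D ξ0 s0 q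

/-- Small families are listed in length `ω₁`. -/
def G_LL : Prop := ∀ (J K : Type 1) (a : J → K → BA), Small.{0} J → Nonempty J →
  ∃ Lx : Om → K → BA, ∀ j p, p ∈ ⨆ ν, ⨅ k, eqB (Lx ν k) (a j k)

/-- Making a relation a function. -/
def G_FNOF : Prop := ∀ Y : Om → Om → BA, ∃ f : FN Om BA, ∀ (i : Om) (p : Cond),
  (p ∈ ⨆ j, Y i j) → (∀ j k, j ≠ k → p ∈ (Y i j ⊓ Y i k)ᶜ) → ∀ j, p ∈ eqB (Y i j) (f.v i j)

/-- All captured functions are listed by one function. -/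
def G_LIST : Prop := ∀ (G : Grd Om) (D0 : Set Coord), Small.{0} D0 → ∃ z : FN Om BA,
  ∀ (b : FN Om BA) (q : Cond), Capt (fun i : Om × Om => b.v i.1 i.2) D0 q → q ∈ lstV G z b

/-- Heights of the points of a branch. -/
def G_BHT : Prop := ∀ (G : Grd Om) (x ht b : FN Om BA) (p : Cond), TreeF G p x ht →
  p ∈ brFV G x b → ∀ α n, p ∈ b.v α n ⇨ ht.v n α

/-- From enumerations of branches to sets. -/
def G_CONV : Prop := ∀ (G : Grd Om) (x ht b : FN Om BA) (p : Cond), TreeF G p x ht →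
  p ∈ brFV G x b → BrF G p x ht (fun n => ⨆ α, b.v α n) ∧
  ∀ D : Set Coord, (∀ i j, Dn D (ht.v i j)) → ∀ q, q ≤ p →
    Capt (fun n => ⨆ α, b.v α n) D q → Capt (fun i : Om × Om => b.v i.1 i.2) D q

/-- Enumerations of countable sets. -/
def G_ENS : Prop := ∀ (G : Grd Om) (X : Set (Set Om)), X.Countable → X.Nonempty →
  Enum G X (enS G X)

/-- Levels and rows below a condition. -/
def G_ROW : Prop := ∀ (G : Grd Om) (p : Cond),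
  (∀ γ, (lev p γ).Countable ∧ (lev p γ).Nonempty) ∧ (lev p p.g = p.S) ∧
  (∀ q γ, q ≤ p → γ ≤ p.g → lev q γ = lev p γ) ∧
  (∀ γ k β, γ ≤ p.g → β ∈ enS G (lev p γ) k → p ∈ tN G γ k β) ∧
  (∀ γ k β, γ ≤ p.g → β ∉ enS G (lev p γ) k → p ∈ (tN G γ k β)ᶜ) ∧
  (∀ ξ s β, p.v (.row ξ) = some (.nd s) → β < p.g → β ∈ s → p ∈ rowN ξ β) ∧
  (∀ ξ s β, p.v (.row ξ) = some (.nd s) → β < p.g → β ∉ s → p ∈ (rowN ξ β)ᶜ) ∧
  (∀ ξ s γ k, p.v (.row ξ) = some (.nd s) → γ ≤ p.g → k < G.w0 →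
    (p ∈ ndV G (rowN ξ) γ k ↔ enS G (lev p γ) k = s ∩ Iio γ)) ∧
  (∀ (a : Om → BA) γ k, γ ≤ p.g → k < G.w0 → (p ∈ ndV G a γ k ↔ ∀ β, β < γ →
    (β ∈ enS G (lev p γ) k → p ∈ a β) ∧ (β ∉ enS G (lev p γ) k → p ∈ (a β)ᶜ))) ∧
  (∀ ξ s, p.v (.row ξ) = some (.nd s) → p ∈ brV G (rowN ξ)) ∧
  (∀ ξ ξ' s s', ξ ≠ ξ' → p.v (.row ξ) = some (.nd s) → p.v (.row ξ') = some (.nd s') →
    p ∈ neV (rowN ξ) (rowN ξ'))

/-- Every branch of the generic tree is a row. -/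
def G_NB : Prop := ∀ (G : Grd Om) (a : Om → BA) (p : Cond), p ∈ brV G a →
  ∃ q, q ≤ p ∧ ∃ ξ s, q.v (.row ξ) = some (.nd s) ∧ ∀ β, q ∈ eqB (a β) (rowN ξ β)

/-- New rows are not listed. -/
def G_NL : Prop := ∀ (Lx : Om → Om → BA) (D : Set Coord) (ξ : Kap) (p : Cond) (s : Set Om),
  (∀ ν β, Dn D (Lx ν β)) → Coord.row ξ ∉ D → p.v (.row ξ) = some (.nd s) →
  p ∈ nlV Lx (rowN ξ)

/-- Lifting extensions of `star w`. -/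
def G_LFT : Prop := ∀ (D : Set Coord) (ξ0 ξ ξ' : Kap) (w : Cond) (s s' : Set Om)
  (hs : s ∈ w.S) (hs' : s' ∈ w.S), Coord.row ξ0 ∉ D → ξ ≠ ξ0 → ξ' ≠ ξ0 →
  Coord.row ξ ∉ D → Coord.row ξ' ∉ D → w.v (.row ξ) = some (.nd s) →
  w.v (.row ξ') = some (.nd s') →
  ∀ y y' : Cond, y ≤ star w D ξ0 s hs → y' ≤ star w D ξ0 s' hs' → y.rs D = y'.rs D →
  y.supp ⊆ insert (Coord.row ξ0) D → y'.supp ⊆ insert (Coord.row ξ0) D →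
  (ξ = ξ' → y = y') →
  ∃ w1, w1 ≤ w ∧ w1.rs D = y.rs D ∧ w1.v (.row ξ) = y.v (.row ξ0) ∧
    w1.v (.row ξ') = y'.v (.row ξ0)

/-- The key equivalence. -/
def G_EKEY : Prop := ∀ (G : Grd Om) (b : Om → BA) (D : Set Coord) (ξ0 : Kap) (s0 : Set Om)
  (q : Cond), Good b D ξ0 s0 q → ∀ (w : Cond) (ξ : Kap) (s : Set Om) (hs : s ∈ w.S),
  ξ ≠ ξ0 → Coord.row ξ ∉ D → w.v (.row ξ) = some (.nd s) → star w D ξ0 s hs ≤ q →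
  ∀ n, w ∈ EAV G (rowN ξ) (EN G q D ξ0 b) n ↔ star w D ξ0 s hs ∈ b n

/-- The images of new rows are cofinal chains. -/
def G_ECC : Prop := ∀ (G : Grd Om) (x ht : FN Om BA) (b : Om → BA) (D : Set Coord)
  (ξ0 : Kap) (s0 : Set Om) (q : Cond), (∀ i j, Dn D (x.v i j)) → (∀ i j, Dn D (ht.v i j)) →
  TreeF G q x ht → BrF G q x ht b → Good b D ξ0 s0 q →
  ∀ (w : Cond) (ξ : Kap) (s : Set Om) (hs : s ∈ w.S),
  ξ ≠ ξ0 → Coord.row ξ ∉ D → w.v (.row ξ) = some (.nd s) → star w D ξ0 s hs ≤ q →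
  w ∈ cofV G ht (EN G q D ξ0 b) (rowN ξ) ∧ w ∈ chnV G x (EN G q D ξ0 b) (rowN ξ)

/-- The images of different new rows differ. -/
def G_EINC : Prop := ∀ (G : Grd Om) (x ht : FN Om BA) (b : Om → BA) (D : Set Coord)
  (ξ0 : Kap) (s0 : Set Om) (q : Cond), (∀ i j, Dn D (x.v i j)) → (∀ i j, Dn D (ht.v i j)) →
  TreeF G q x ht → BrF G q x ht b → Good b D ξ0 s0 q →
  ∀ (w : Cond) (ξ ξ' : Kap) (s s' : Set Om) (hs : s ∈ w.S) (hs' : s' ∈ w.S),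
  ξ ≠ ξ0 → ξ' ≠ ξ0 → ξ ≠ ξ' → Coord.row ξ ∉ D → Coord.row ξ' ∉ D →
  w.v (.row ξ) = some (.nd s) → w.v (.row ξ') = some (.nd s') →
  star w D ξ0 s hs ≤ q → star w D ξ0 s' hs' ≤ q →
  w ∈ incV G ht (EN G q D ξ0 b) (rowN ξ) (rowN ξ')

/-- From many branches to the certificate. -/
def G_FWD : Prop := ∀ (G : Grd Om) (x ht : FN Om BA) (en : Om → FN Om BA) (p : Cond),
  TreeF G p x ht → EnF G p ht en →
  (∀ z : FN Om BA, p ∈ ⨆ b : FN Om BA, (brFV G x b ⊓ (lstV G z b)ᶜ)) →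
  p ∈ ⨆ E : Om → Om → Om → BA, ⨆ Lx : Om → Om → BA, ⨆ γ0, ⨆ k0,
    (bo (k0 < G.w0) ⊓ certV G x ht E Lx γ0 k0)

/-- From the certificate to many branches. -/
def G_BWD : Prop := ∀ (G : Grd Om) (x ht : FN Om BA) (E : Om → Om → Om → BA)
  (Lx : Om → Om → BA) (γ0 k0 : Om) (p : Cond), TreeF G p x ht → k0 < G.w0 →
  p ∈ certV G x ht E Lx γ0 k0 → ∀ z : FN Om BA,
  p ∈ ⨆ b : FN Om BA, (brFV G x b ⊓ (lstV G z b)ᶜ)

end Pool.Agent.Helper97.Ku
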