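import Pool.Agent.Helper97.Ku.GoalsC

/-! Goals for the syntactic part and the final assembly. -/

namespace Pool.Agent.Helper97.Ku

open Set

namespace SO

/-- Equivalence. -/
def iff (a b : SO) : SO := .and (.imp a b) (.imp b a)

/-- Like `reg`, with a uniform enumeration of the levels, function variable `8`. -/
def regU : SO :=
  .and (.all 0 (.or (.ap 0 (V 0) .c0) (.ap 0 (V 0) .c1))) <|
  .and (.all 0 (.neg (R 0 (V 0) (V 0)))) <|
  .and (.all 0 (.all 1 (.all 2 (.imp (.and (R 0 (V 0) (V 1)) (R 0 (V 1) (V 2)))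
    (R 0 (V 0) (V 2)))))) <|
  .and (.all 0 (.all 1 (.all 2 (.imp (.and (R 0 (V 0) (V 2)) (R 0 (V 1) (V 2)))
    (.or (R 0 (V 0) (V 1)) (.or (.eq (V 0) (V 1)) (R 0 (V 1) (V 0)))))))) <|
  .and (.all 0 (.all 1 (.all 2 (.all 3 (.imp (.and (R 0 (V 0) (V 1))
    (.and (.ap 1 (V 0) (V 2)) (.ap 1 (V 1) (V 3)))) (.lt (V 2) (V 3))))))) <|
  .and (.all 0 (.all 1 (.all 2 (.imp (.and (.ap 1 (V 0) (V 1)) (.lt (V 2) (V 1)))
    (.ex 3 (.and (R 0 (V 3) (V 0)) (.ap 1 (V 3) (V 2)))))))) <|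
  .and (.ex 0 (.and (.ap 1 (V 0) .c0) (.all 1 (.imp (.ap 1 (V 1) .c0) (.eq (V 1) (V 0)))))) <|
  .and (.all 0 (.ex 1 (.ex 2 (.and (.neg (.eq (V 1) (V 2))) (.and (R 0 (V 0) (V 1))
    (.and (R 0 (V 0) (V 2)) (.all 3 (.and (.neg (.and (R 0 (V 0) (V 3)) (R 0 (V 3) (V 1))))
      (.neg (.and (R 0 (V 0) (V 3)) (R 0 (V 3) (V 2)))))))))))) <|
  .and (.all 0 (.all 1 (.all 2 (.imp (.and (.ap 1 (V 0) (V 1)) (.lt (V 1) (V 2)))
    (.ex 3 (.and (R 0 (V 0) (V 3)) (.ap 1 (V 3) (V 2)))))))) <|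
  (.all 0 (.all 1 (.imp (.ap 1 (V 1) (V 0)) (.ex 2 (.and (.om (V 2))
    (.ap 8 (.pr (V 0) (V 2)) (V 1)))))))

/-- The set `A` cut at `γ` is the `k`-th node of level `γ`; uses individual variable `30`. -/
def nd (A : ℕ) (γ k : Tm) : SO :=
  .all 30 (.imp (.lt (V 30) γ) (iff (.ap A (V 30) .c1) (.ap 4 (.pr γ (.pr k (V 30))) .c1)))

/-- `A` is a branch of the generic tree. -/
def brT (A : ℕ) : SO := .all 31 (.ex 32 (.and (.om (V 32)) (nd A (V 31) (V 32))))

/-- `A` is not listed by function variable `3`. -/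
def notL (A : ℕ) : SO :=
  .all 33 (.ex 34 (.neg (iff (.ap A (V 34) .c1) (.ap 3 (.pr (V 33) (V 34)) .c1))))

/-- `A` and `A'` are different. -/
def nee (A A' : ℕ) : SO := .ex 35 (.neg (iff (.ap A (V 35) .c1) (.ap A' (V 35) .c1)))

/-- `n` is in the image of `A`. -/
def EA (A : ℕ) (n : Tm) : SO :=
  .ex 36 (.ex 37 (.and (.om (V 37)) (.and (nd A (V 36) (V 37))
    (.ap 2 (.pr (.pr (V 36) (V 37)) n) .c1))))

/-- The hypothesis on `A`. -/
def hy (A : ℕ) : SO := .and (brT A) (.and (nd A (V 45) (V 46)) (notL A))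

/-- The image of `A` is cofinal. -/
def cof (A : ℕ) : SO := .all 38 (.ex 39 (.and (EA A (V 39)) (.ap 1 (V 39) (V 38))))

/-- The image of `A` is a chain. -/
def chn (A : ℕ) : SO :=
  .all 40 (.all 41 (.imp (.and (EA A (V 40)) (EA A (V 41)))
    (.or (R 0 (V 40) (V 41)) (.or (.eq (V 40) (V 41)) (R 0 (V 41) (V 40))))))

/-- The images of `A` and `A'` differ. -/
def inc (A A' : ℕ) : SO :=
  .ex 42 (.ex 43 (.ex 44 (.and (.and (EA A (V 42)) (EA A' (V 43)))
    (.and (.and (.ap 1 (V 42) (V 44)) (.ap 1 (V 43) (V 44))) (.neg (.eq (V 42) (V 43)))))))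

/-- The certificate. -/
def cf : SO :=
  .ex 45 (.ex 46 (.and (.om (V 46)) (.allF 5 (.allF 6 (.and
    (.imp (hy 5) (.and (cof 5) (chn 5)))
    (.imp (.and (hy 5) (.and (hy 6) (nee 5 6))) (inc 5 6)))))))

theorem cls_cf : (SO.and regU cf).cls true = true := by rfl

/-- The complement of the set of Kurepa trees, in normal form. -/
def nk : SO := .or (.allF 1 (.neg reg)) (.allF 3 (.neg (.and br (.neg lst))))

theorem cls_nk : nk.cls true = true := by rfl

end SO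

/-- The characteristic function of a set name. -/
noncomputable def chr (G : Grd Om) (a : Om → BA) : FN Om BA where
  v m j := (bo (j = G.c1) ⊓ a m) ⊔ (bo (j = G.c0) ⊓ (a m)ᶜ)
  tot m := by
    rw [eq_top_iff]
    have h1 : a m ≤ ⨆ j, ((bo (j = G.c1) ⊓ a m) ⊔ (bo (j = G.c0) ⊓ (a m)ᶜ)) := by
      refine le_trans ?_ (le_iSup _ G.c1)
      rw [bo_true rfl, top_inf_eq]
      exact le_sup_left
    have h2 : (a m)ᶜ ≤ ⨆ j, ((bo (j = G.c1) ⊓ a m) ⊔ (bo (j = G.c0) ⊓ (a m)ᶜ)) := by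
      refine le_trans ?_ (le_iSup _ G.c0)
      rw [bo_true (P := G.c0 = G.c0) rfl, top_inf_eq]
      exact le_sup_right
    rw [← sup_compl_eq_top (x := a m)]
    exact sup_le h1 h2
  fn m j k hjk := by
    have h01 : G.c0 ≠ G.c1 := fun h => by
      have := (G.lt_c1 G.c0).mpr rfl
      rw [← h] at this
      exact lt_irrefl _ this
    have hz : ∀ j : Om, ((bo (j = G.c1) ⊓ a m) ⊔ (bo (j = G.c0) ⊓ (a m)ᶜ) : BA) =
        (if j = G.c1 then a m else if j = G.c0 then (a m)ᶜ else ⊥) := by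
      intro j
      by_cases h1 : j = G.c1
      · rw [if_pos h1, bo_true h1, bo_false (P := j = G.c0) (fun h => h01 (h.symm.trans h1))]
        simp
      · by_cases h0 : j = G.c0
        · rw [if_neg h1, if_pos h0, bo_false h1, bo_true h0]
          simp
        · rw [if_neg h1, if_neg h0, bo_false h1, bo_false h0]
          simp
    rw [hz j, hz k]
    by_cases h1 : j = G.c1 <;> by_cases h2 : k = G.c1 <;> by_cases h3 : j = G.c0 <;>
      by_cases h4 : k = G.c0 <;> simp_all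

/-- The name of the generic tree as a function. -/
noncomputable def tFN (G : Grd Om) : FN Om BA :=
  chr G fun m => tN G (G.pi.symm m).1 (G.pi.symm (G.pi.symm m).2).1 (G.pi.symm (G.pi.symm m).2).2

/-- The formulas on trees and branches. -/
def G_SYN1 : Prop := ∀ (G : Grd Om) (i : ℕ → Om) (e : ℕ → FN Om BA),
  (∀ p, p ∈ SO.reg.val (M0 G BA) i e ↔ TreeF G p (e 0) (e 1)) ∧
  (SO.br.val (M0 G BA) i e = brFV G (e 0) (e 3)) ∧
  (SO.lst.val (M0 G BA) i e = lstV G (e 2) (e 3)) ∧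
  (∀ p, p ∈ SO.regU.val (M0 G BA) i e ↔ (TreeF G p (e 0) (e 1) ∧
    ∀ δ j, p ∈ (e 1).v j δ ⇨ ⨆ n, (bo (n < G.w0) ⊓ (e 8).v (G.pi (δ, n)) j)))

/-- The certificate formula. -/
def G_SYN2 : Prop := ∀ (G : Grd Om) (i : ℕ → Om) (e : ℕ → FN Om BA), e 4 = tFN G →
  SO.cf.val (M0 G BA) i e = ⨆ γ0, ⨆ k0, (bo (k0 < G.w0) ⊓
    certV G (e 0) (e 1) (fun γ k n => (e 2).v (G.pi (G.pi (γ, k), n)) G.c1)
      (fun ν β => (e 3).v (G.pi (ν, β)) G.c1) γ0 k0)

/-- The Kurepa trees have certificates. -/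
def G_KC : Prop := ∀ (G : Grd Om) (i : ℕ → Om) (e : ℕ → FN Om BA), e 4 = tFN G →
  SO.kur.val (M0 G BA) i e = (SO.exs [1, 8, 2, 3] (.and SO.regU SO.cf)).val (M0 G BA) i e

/-- The set of Kurepa trees is `Σ¹₂`. -/
def G_SG1 : Prop := ∀ (G : Grd Om) (i : ℕ → Om) (e : ℕ → FN Om BA),
  Sigma12 (fun x => SO.kur.val (M0 G BA) i (Function.update e 0 x))

/-- The complement of the set of Kurepa trees is `Σ¹₂`. -/
def G_SG2 : Prop := ∀ (G : Grd Om) (i : ℕ → Om) (e : ℕ → FN Om BA),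
  Sigma12 (fun x => (SO.kur.val (M0 G BA) i (Function.update e 0 x))ᶜ)

/-- `ω₁` is uncountable. -/
def G_UNC : Prop := ∀ (G : Grd Om) (i : ℕ → Om) (e : ℕ → FN Om BA),
  SO.unc.val (M0 G BA) i e = ⊤

/-- Countable ordinals are countable. -/
def G_CNTF : Prop := ∀ (G : Grd Om) (i : ℕ → Om) (e : ℕ → FN Om BA),
  SO.cnt.val (M0 G BA) i e = ⊤

/-- The continuum hypothesis. -/
def G_CH : Prop := ∀ (G : Grd Om) (i : ℕ → Om) (e : ℕ → FN Om BA),
  SO.ch.val (M0 G BA) i e = ⊤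

/-- Data for coding the generic tree as a tree on `ω₁`: the levels `lam γ` are used, `z i` is
the level and the number of the node `i`. -/
structure TD (G : Grd Om) where
  lam : Om → Om
  lam_mono : StrictMono lam
  lam_zero : lam G.c0 = G.c0
  lam_inf : ∀ γ, G.c0 < γ → G.w0 ≤ lam γ
  z : Om → Om × Om
  z_inj : Function.Injective z
  z_ran : ∀ q : Om × Om, q ∈ range z ↔ (q = (G.c0, G.c0) ∨ (G.c0 < q.1 ∧ q.2 < G.w0))

/-- The node `i` of the tree below a condition of level at least `lam (z i).1`. -/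
noncomputable def TD.node {G : Grd Om} (t : TD G) (p : Cond) (i : Om) : Set Om :=
  enS G (lev p (t.lam (t.z i).1)) (t.z i).2

/-- The value of the tree order. -/
noncomputable def TD.rel {G : Grd Om} (t : TD G) (i j : Om) : BA :=
  RO.cl {p | t.lam (t.z j).1 ≤ p.g ∧ (t.z i).1 < (t.z j).1 ∧
    t.node p i = t.node p j ∩ Iio (t.lam (t.z i).1)}

/-- The code of the tree. -/
noncomputable def TD.x {G : Grd Om} (t : TD G) : FN Om BA :=
  chr G fun m => t.rel (G.pi.symm m).1 (G.pi.symm m).2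

/-- The name of a ground function. -/
def gfn (f : Om → Om) : FN Om BA where
  v i j := bo (j = f i)
  tot i := by
    rw [eq_top_iff]
    exact le_trans (by rw [bo_true rfl]) (le_iSup (fun j => (bo (j = f i) : BA)) (f i))
  fn i j k h := by
    by_cases hj : j = f i
    · rw [bo_false (P := k = f i) (fun hk => h (hj.trans hk.symm)), inf_bot_eq]
    · rw [bo_false hj, bot_inf_eq]

/-- The data exist. -/
def G_TD : Prop := ∀ G : Grd Om, Nonempty (TD G)

/-- The code is a code of a regular tree. -/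
def G_TT : Prop := ∀ (G : Grd Om) (t : TD G) (p : Cond),
  TreeF G p t.x (gfn fun i => (t.z i).1)

/-- The tree has many branches. -/
def G_TB : Prop := ∀ (G : Grd Om) (t : TD G) (p : Cond) (z : FN Om BA),
  p ∈ ⨆ b : FN Om BA, (brFV G t.x b ⊓ (lstV G z b)ᶜ)

/-- There are Kurepa trees. -/
def G_NE : Prop := ∀ (G : Grd Om) (i : ℕ → Om) (e : ℕ → FN Om BA),
  (SO.exF 0 SO.kur).val (M0 G BA) i e = ⊤

/-- The final result. -/
def G_MAIN : Prop := ∃ (N : Type 2) (E : N → N → Prop), IsZFC N E ∧ Phi E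

end Pool.Agent.Helper97.Ku
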