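import Pool.Agent.Helper97.Ku.GoalsD

/-! Assembly of the final result from the packets. -/

namespace Pool.Agent.Helper97.Ku

open Set

theorem wfOm : WellFoundedLT Om := inferInstance

/-- The second-order statement is forced. -/
theorem hphi (G : Grd Om) (hch : G_CH) (hunc : G_UNC) (hcnt : G_CNTF) (hne : G_NE)
    (h1 : G_SG1) (h2 : G_SG2) : HPhi G BA where
  ch := hch G
  unc := hunc G
  cnt := hcnt G
  ne := hne G
  sig := h1 G
  sig' := h2 G

theorem top_ne_bot : (⊤ : BA) ≠ ⊥ := by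
  intro h
  have hg : Nonempty Cond := by
    refine ⟨⟨⟨0, ?_⟩, {∅}, fun _ => none, countable_singleton _, singleton_nonempty _, ?_, ?_,
      by simp, by simp⟩⟩
    · exact Ordinal.omega_pos 1
    · rintro s rfl; exact empty_subset _
    · rintro s rfl β hβ
      exact absurd hβ (not_lt.mpr (by exact bot_le (a := (β : Ordinal.{0}))))
  obtain ⟨p⟩ := hg
  have h3 : p ∈ (⊤ : BA) := RO.mem_top p
  rw [h] at h3
  exact RO.not_mem_bot p h3

theorem main (hgrd : G_GRD) (htr : G_TRANS.{1}) (hch : G_CH) (hunc : G_UNC) (hcnt : G_CNTF)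
    (hne : G_NE) (h1 : G_SG1) (h2 : G_SG2) : G_MAIN := by
  obtain ⟨G⟩ := hgrd
  exact htr Om BA G top_ne_bot (hphi G hch hunc hcnt hne h1 h2)

end Pool.Agent.Helper97.Ku
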