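import Pool.Agent.Helper97.Ku.Forc
import Pool.Agent.Helper97.Ku.GoalsG

/-! Names for the forcing, and the combinatorial notions. -/

namespace Pool.Agent.Helper97.Ku

open Set

/-- The complete Boolean algebra of the forcing. -/
abbrev BA : Type 1 := RO Cond

/-- Equivalence. -/
def eqB (a b : BA) : BA := (a ⇨ b) ⊓ (b ⇨ a)

/-- The truth value `b` only depends on the coordinates in `D`. -/
def Dn (D : Set Coord) (b : BA) : Prop := ∀ p, p ∈ b → p.rs D ∈ b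

/-- Below `q` the family `b` only depends on the coordinates in `D`. -/
def Capt {I : Type*} (b : I → BA) (D : Set Coord) (q : Cond) : Prop :=
  ∀ (i : I) (q1 q2 : Cond), q1 ≤ q → q2 ≤ q → q1.rs D = q2.rs D → q1 ∈ b i → q2 ∉ (b i)ᶜ

theorem Capt.mono {I : Type*} {b : I → BA} {D : Set Coord} {q q' : Cond} (h : Capt b D q)
    (hq : q' ≤ q) : Capt b D q' :=
  fun i q1 q2 h1 h2 => h i q1 q2 (h1.trans hq) (h2.trans hq)

theorem Capt.subset {I : Type*} {b : I → BA} {D D' : Set Coord} {q : Cond} (h : Capt b D q)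
    (hD : D ⊆ D') : Capt b D' q :=
  fun i q1 q2 h1 h2 e => h i q1 q2 h1 h2 (Cond.rs_eq_of_subset hD e)

/-- Opposite decisions. -/
def Opp {I : Type*} (b : I → BA) (i : I) (u v : Cond) : Prop :=
  (u ∈ b i ∧ v ∈ (b i)ᶜ) ∨ (u ∈ (b i)ᶜ ∧ v ∈ b i)

/-- Decreasing sequences. -/
def Desc (p : ℕ → Cond) : Prop := ∀ k, p (k + 1) ≤ p k

/-- Agreement below `k`. -/
def Agree (k : ℕ) (σ τ : ℕ → Bool) : Prop := ∀ i, i < k → σ i = τ i

/-- A system of conditions indexed by binary sequences, depending on the first `m` digits, such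
that sequences with the same first `j` digits have conditions with the same restriction to
`D j`, for `j ≤ k`. -/
def Sys (D : ℕ → Set Coord) (k m : ℕ) (Q : (ℕ → Bool) → Cond) : Prop :=
  (∀ σ τ, Agree m σ τ → Q σ = Q τ) ∧
  ∀ j, j ≤ k → ∀ σ τ, Agree j σ τ → (Q σ).rs (D j) = (Q τ).rs (D j)

/-- The branch given by row `ξ`. -/
def rowN (ξ : Kap) (β : Om) : BA :=
  RO.cl {p | ∃ s, p.v (.row ξ) = some (.nd s) ∧ β < p.g ∧ β ∈ s}

/-- The value of the collapsing function. -/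
def colN (ξ : Kap) (ν : Om) (η : Kap) : BA := RO.cl {p | p.v (.col ξ ν) = some (.od η)}

/-- Level `γ` of the tree of the condition. -/
def lev (p : Cond) (γ : Om) : Set (Set Om) := (fun s => s ∩ Iio γ) '' p.S

/-- `f` enumerates `X` on the finite ordinals, injectively if `X` is infinite. -/
def Enum (G : Grd Om) (X : Set (Set Om)) (f : Om → Set Om) : Prop :=
  (∀ k, k < G.w0 → f k ∈ X) ∧ (∀ s ∈ X, ∃ k, k < G.w0 ∧ f k = s) ∧
  (X.Infinite → ∀ j k, j < G.w0 → k < G.w0 → f j = f k → j = k)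

open Classical in
/-- A chosen enumeration. -/
noncomputable def enS (G : Grd Om) (X : Set (Set Om)) : Om → Set Om :=
  if h : ∃ f, Enum G X f then h.choose else fun _ => ∅

/-- The value of: `β` is in the `k`-th node of level `γ` of the generic tree. -/
noncomputable def tN (G : Grd Om) (γ k β : Om) : BA :=
  RO.cl {p | γ ≤ p.g ∧ β ∈ enS G (lev p γ) k}

/-- The value of: the set `a` cut at `γ` is the `k`-th node of level `γ`. -/
noncomputable def ndV (G : Grd Om) (a : Om → BA) (γ k : Om) : BA :=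
  ⨅ β, ⨅ _ : β < γ, eqB (a β) (tN G γ k β)

/-- The value of: `a` is a branch of the generic tree. -/
noncomputable def brV (G : Grd Om) (a : Om → BA) : BA :=
  ⨅ γ, ⨆ k, (bo (k < G.w0) ⊓ ndV G a γ k)

/-- The value of: `n` is in the image of the branch `a` under `E`. -/
noncomputable def EAV (G : Grd Om) (a : Om → BA) (E : Om → Om → Om → BA) (n : Om) : BA :=
  ⨆ γ, ⨆ k, (bo (k < G.w0) ⊓ (ndV G a γ k ⊓ E γ k n))

/-- The relation coded by `x`. -/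
def Rv (G : Grd Om) (x : FN Om BA) (i j : Om) : BA := x.v (G.pi (i, j)) G.c1

/-- The value of: `b` is the increasing enumeration of a cofinal branch of `x`. -/
def brFV (G : Grd Om) (x b : FN Om BA) : BA :=
  (⨅ α, ⨅ β, ⨅ n, ⨅ m, ((bo (α < β) ⊓ (b.v α n ⊓ b.v β m)) ⇨ Rv G x n m)) ⊓
  (⨅ α, ⨅ n, ⨅ i, ((b.v α n ⊓ Rv G x i n) ⇨ ⨆ β, (bo (β < α) ⊓ b.v β i)))

/-- The value of: `b` is listed by `z`. -/
def lstV (G : Grd Om) (z b : FN Om BA) : BA :=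
  ⨆ ν, ⨅ α, ⨅ n, (z.v (G.pi (ν, α)) n ⇨ b.v α n)

/-- `p` forces that `x` codes a regular tree with countable levels and height function `ht`. -/
structure TreeF (G : Grd Om) (p : Cond) (x ht : FN Om BA) : Prop where
  char : ∀ k, p ∈ x.v k G.c0 ⊔ x.v k G.c1
  irr : ∀ i, p ∈ (Rv G x i i)ᶜ
  trans : ∀ i j k, p ∈ (Rv G x i j ⊓ Rv G x j k) ⇨ Rv G x i k
  lin : ∀ i j k, p ∈ (Rv G x i k ⊓ Rv G x j k) ⇨ (Rv G x i j ⊔ (bo (i = j) ⊔ Rv G x j i))
  ht_lt : ∀ i j α β, p ∈ (Rv G x i j ⊓ (ht.v i α ⊓ ht.v j β)) ⇨ bo (α < β)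
  ht_ex : ∀ j α β, α < β → p ∈ ht.v j β ⇨ ⨆ i, (Rv G x i j ⊓ ht.v i α)
  root : p ∈ ⨆ r, (ht.v r G.c0 ⊓ ⨅ i, (ht.v i G.c0 ⇨ bo (i = r)))
  split : ∀ i, p ∈ ⨆ j, ⨆ j', (bo (j ≠ j') ⊓ (Rv G x i j ⊓ (Rv G x i j' ⊓
    ⨅ k, ((Rv G x i k ⊓ Rv G x k j)ᶜ ⊓ (Rv G x i k ⊓ Rv G x k j')ᶜ))))
  pruned : ∀ i α β, α < β → p ∈ ht.v i α ⇨ ⨆ j, (Rv G x i j ⊓ ht.v j β)
  cnt : ∀ α, p ∈ ⨆ e : FN Om BA, ⨅ j, (ht.v j α ⇨ ⨆ n, (bo (n < G.w0) ⊓ e.v n j))

/-- `p` forces that `en δ` enumerates level `δ`. -/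
def EnF (G : Grd Om) (p : Cond) (ht : FN Om BA) (en : Om → FN Om BA) : Prop :=
  ∀ δ j, p ∈ ht.v j δ ⇨ ⨆ n, (bo (n < G.w0) ⊓ (en δ).v n j)

/-- `p` forces that the set `b` is a cofinal branch. -/
structure BrF (G : Grd Om) (p : Cond) (x ht : FN Om BA) (b : Om → BA) : Prop where
  ch : ∀ n m, p ∈ (b n ⊓ b m) ⇨ (Rv G x n m ⊔ (bo (n = m) ⊔ Rv G x m n))
  dn : ∀ n m, p ∈ (b m ⊓ Rv G x n m) ⇨ b n
  co : ∀ α, p ∈ ⨆ n, (b n ⊓ ht.v n α)

/-- The value of: `a` is not listed by `Lx`. -/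
def nlV (Lx : Om → Om → BA) (a : Om → BA) : BA := ⨅ ν, ⨆ β, (eqB (a β) (Lx ν β))ᶜ

/-- The value of: `a` and `a'` are different. -/
def neV (a a' : Om → BA) : BA := ⨆ β, (eqB (a β) (a' β))ᶜ

/-- The value of the hypothesis of the certificate. -/
noncomputable def hyV (G : Grd Om) (Lx : Om → Om → BA) (γ0 k0 : Om) (a : Om → BA) : BA :=
  brV G a ⊓ (ndV G a γ0 k0 ⊓ nlV Lx a)

/-- The value of: the image of `a` meets every level. -/
noncomputable def cofV (G : Grd Om) (ht : FN Om BA) (E : Om → Om → Om → BA) (a : Om → BA) :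
    BA := ⨅ α, ⨆ n, (EAV G a E n ⊓ ht.v n α)

/-- The value of: the image of `a` is a chain. -/
noncomputable def chnV (G : Grd Om) (x : FN Om BA) (E : Om → Om → Om → BA) (a : Om → BA) :
    BA := ⨅ n, ⨅ m, ((EAV G a E n ⊓ EAV G a E m) ⇨ (Rv G x n m ⊔ (bo (n = m) ⊔ Rv G x m n)))

/-- The value of: the images of `a` and `a'` differ. -/
noncomputable def incV (G : Grd Om) (ht : FN Om BA) (E : Om → Om → Om → BA)
    (a a' : Om → BA) : BA :=
  ⨆ n, ⨆ m, ⨆ α, ((EAV G a E n ⊓ EAV G a' E m) ⊓ ((ht.v n α ⊓ ht.v m α) ⊓ bo (n ≠ m)))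

/-- The value of the certificate. -/
noncomputable def certV (G : Grd Om) (x ht : FN Om BA) (E : Om → Om → Om → BA)
    (Lx : Om → Om → BA) (γ0 k0 : Om) : BA :=
  (⨅ a : Om → BA, (hyV G Lx γ0 k0 a ⇨ (cofV G ht E a ⊓ chnV G x E a))) ⊓
  (⨅ a : Om → BA, ⨅ a' : Om → BA,
    ((hyV G Lx γ0 k0 a ⊓ (hyV G Lx γ0 k0 a' ⊓ neV a a')) ⇨ incV G ht E a a'))

/-- A good triple: the branch `b` depends below `q` on the coordinates in `D` and on row `ξ0`,
and really on row `ξ0`. -/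
structure Good (b : Om → BA) (D : Set Coord) (ξ0 : Kap) (s0 : Set Om) (q : Cond) : Prop where
  nD : Coord.row ξ0 ∉ D
  sp : q.supp ⊆ insert (Coord.row ξ0) D
  v0 : q.v (Coord.row ξ0) = some (.nd s0)
  cap : Capt b (insert (Coord.row ξ0) D) q
  nc : ∀ q', q' ≤ q → ¬ Capt b D q'

/-- The condition `w` cut to `D` with the node `s` put on row `ξ0`. -/
noncomputable def star (w : Cond) (D : Set Coord) (ξ0 : Kap) (s : Set Om) (hs : s ∈ w.S) :
    Cond := upd (w.rs D) (.row ξ0) (.nd s) hs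

/-- The name of the relation `E`. -/
noncomputable def EN (G : Grd Om) (q : Cond) (D : Set Coord) (ξ0 : Kap) (b : Om → BA)
    (γ k n : Om) : BA :=
  RO.cl {w | ∃ u : Cond, u.supp ⊆ insert (Coord.row ξ0) D ∧ u ≤ q ∧ w ≤ u.rs D ∧ u.g = γ ∧
    k < G.w0 ∧ u.v (.row ξ0) = some (.nd (enS G u.S k)) ∧ u ∈ b n}

end Pool.Agent.Helper97.Ku
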